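import Pool.Agent.Lib.MP_9fa4ca_an.NAT
import Mathlib.Analysis.SpecialFunctions.Trigonometric.Chebyshev.Extremal

/-!
# CR/CHB : the distance from the diagonal is not too small (Chebyshev)
-/

set_option autoImplicit false

open Set Topology Filter Complex

namespace Pool.Agent.Lib.MP9fa4ca

namespace PLYAux

/-- Chebyshev's inequality on an interval. -/
theorem cheb (P : Polynomial ℝ) (N : ℕ) (hN : P.natDegree = N) (hN1 : 1 ≤ N) {a b : ℝ}
    (hab : a < b) : ∃ x ∈ Icc a b, |P.leadingCoeff| * ((b - a) / 4) ^ N ≤ |P.eval x| := by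
  by_contra hcon
  push Not at hcon
  have hP : P ≠ 0 := by
    rintro rfl
    rw [Polynomial.natDegree_zero] at hN
    omega
  have hlc : 0 < |P.leadingCoeff| := abs_pos.2 (Polynomial.leadingCoeff_ne_zero.2 hP)
  have hba : 0 < b - a := by linarith
  set S := |P.leadingCoeff| * ((b - a) / 4) ^ N with hS
  have hS0 : 0 < S := by positivity
  obtain ⟨u, hu, hu1⟩ : ∃ u : ℝ, u * P.leadingCoeff = |P.leadingCoeff| ∧ |u| = 1 := by
    rcases le_total 0 P.leadingCoeff with h | h
    · exact ⟨1, by rw [abs_of_nonneg h, one_mul], by norm_num⟩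
    · exact ⟨-1, by rw [abs_of_nonpos h, neg_one_mul], by norm_num⟩
  set h : ℝ := (b - a) / 2 with hh
  have hh0 : 0 < h := by positivity
  set L : Polynomial ℝ := Polynomial.C h * Polynomial.X + Polynomial.C ((a + b) / 2) with hL
  have hLd : L.natDegree = 1 := Polynomial.natDegree_linear hh0.ne'
  have hLl : L.leadingCoeff = h := Polynomial.leadingCoeff_linear hh0.ne'
  set R : Polynomial ℝ := Polynomial.C (u * S⁻¹) * P.comp L with hR
  have hcd : (P.comp L).natDegree = N := by rw [Polynomial.natDegree_comp, hLd, mul_one, hN]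
  have hRd : R.degree ≤ N := by
    refine Polynomial.degree_le_of_natDegree_le ?_
    rw [← hcd]
    exact Polynomial.natDegree_C_mul_le _ _
  have hcc : (P.comp L).coeff N = P.leadingCoeff * h ^ N := by
    have h1 : (P.comp L).leadingCoeff = P.leadingCoeff * h ^ N := by
      rw [Polynomial.leadingCoeff_comp (by rw [hLd]; norm_num), hLl, hN]
    rw [← h1, Polynomial.leadingCoeff, hcd]
  have hRb : ∀ x ∈ Icc (-1 : ℝ) 1, |R.eval x| ≤ 1 := by
    intro x hx
    have h1 : h * x + (a + b) / 2 ∈ Icc a b := by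
      rw [hh]
      constructor
      · nlinarith [hx.1]
      · nlinarith [hx.2]
    have h2 := (hcon _ h1).le
    rw [hR, Polynomial.eval_mul, Polynomial.eval_C, Polynomial.eval_comp, hL, Polynomial.eval_add,
      Polynomial.eval_mul, Polynomial.eval_C, Polynomial.eval_X, Polynomial.eval_C, abs_mul, abs_mul,
      hu1, one_mul, abs_of_pos (inv_pos.2 hS0), inv_mul_le_iff₀ hS0, mul_one]
    exact h2
  have h1 := Polynomial.Chebyshev.coeff_le_of_forall_abs_le_one hRd hRb
  rw [hR, Polynomial.coeff_C_mul, hcc] at h1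
  have h2 : u * S⁻¹ * (P.leadingCoeff * h ^ N) = 2 ^ N := by
    have h3 : u * S⁻¹ * (P.leadingCoeff * h ^ N) = (u * P.leadingCoeff) * h ^ N / S := by
      field_simp
    have h4 : (b - a) / 4 = h / 2 := by rw [hh]; ring
    have h5 : (h / 2) ^ N * 2 ^ N = h ^ N := by
      rw [← mul_pow]
      congr 1
      ring
    rw [h3, hu, div_eq_iff hS0.ne', hS, h4, ← h5]
    ring
  rw [h2] at h1
  have h3 : (2 : ℝ) ^ (N - 1) < 2 ^ N := pow_lt_pow_right₀ (by norm_num) (by omega)
  linarith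

theorem QQ_lc {d : ℕ} (hd : 2 ≤ d) (c : Fin (d + 1) → ℝ) (h : c (Fin.last d) ≠ 0) (n : ℕ) :
    (min 1 |c (Fin.last d)|) ^ (d ^ n - 1) ≤ |(QQ c n).1.leadingCoeff| := by
  set μ := min 1 |c (Fin.last d)| with hμ
  have hμ0 : 0 < μ := lt_min one_pos (abs_pos.2 h)
  have hμ1 : μ ≤ 1 := min_le_left _ _
  have hPl : (PP c).leadingCoeff = c (Fin.last d) := by
    rw [Polynomial.leadingCoeff, PP_natDegree c h]
    exact PP_coeff c (Fin.last d)
  induction n with
  | zero => simp [QQ]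
  | succ n ih =>
    have hdeg := QQ_deg hd c h n
    have h1 : d ^ n < d ^ (n + 1) := Nat.pow_lt_pow_right (by omega) (Nat.lt_succ_self n)
    have hpos : 1 ≤ d ^ n := Nat.one_le_pow _ _ (by omega)
    have h2 : ((PP c).comp (QQ c n).1).natDegree = d ^ (n + 1) := by
      rw [Polynomial.natDegree_comp, PP_natDegree c h, hdeg.1, pow_succ']
    have h3 : (QQ c (n + 1)).1.leadingCoeff =
        c (Fin.last d) * (QQ c n).1.leadingCoeff ^ d := by
      show ((PP c).comp (QQ c n).1 - (QQ c n).2).leadingCoeff = _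
      rw [Polynomial.leadingCoeff_sub_of_degree_lt, Polynomial.leadingCoeff_comp, hPl,
        PP_natDegree c h]
      · rw [hdeg.1]
        omega
      · refine Polynomial.degree_lt_degree ?_
        rw [h2]
        exact hdeg.2.trans_lt h1
    rw [h3, abs_mul, abs_pow]
    calc μ ^ (d ^ (n + 1) - 1) ≤ μ ^ (1 + (d ^ n - 1) * d) := by
          refine pow_le_pow_of_le_one hμ0.le hμ1 ?_
          have h4 : (d ^ n - 1) * d = d ^ (n + 1) - d := by
            rw [Nat.sub_mul, one_mul, pow_succ]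
          have h5 : d ≤ d ^ (n + 1) := Nat.le_self_pow (by omega) d
          omega
      _ = μ * (μ ^ (d ^ n - 1)) ^ d := by rw [pow_add, pow_one, pow_mul]
      _ ≤ |c (Fin.last d)| * |(QQ c n).1.leadingCoeff| ^ d := by
          refine mul_le_mul (min_le_right _ _) (pow_le_pow_left₀ (by positivity) ih d)
            (by positivity) (abs_nonneg _)

/-- the leading coefficient dominates -/
theorem lower_aux {d : ℕ} (hd : 2 ≤ d) (c : Fin (d + 1) → ℝ) (h : c (Fin.last d) ≠ 0) {a b : ℝ}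
    (hab : a < b) (n : ℕ) (S : Polynomial ℝ) (hS : S.natDegree < d ^ (n + 1)) :
    ∃ x ∈ Icc a b, Real.exp (-(-Real.log (min 1 |c (Fin.last d)| * min 1 ((b - a) / 4)) *
      (d : ℝ) ^ (n + 1))) ≤ |(QQ c (n + 1)).1.eval x - S.eval x| := by
  set μ := min 1 |c (Fin.last d)| with hμ
  have hμ0 : 0 < μ := lt_min one_pos (abs_pos.2 h)
  have hμ1 : μ ≤ 1 := min_le_left _ _
  set τ := min 1 ((b - a) / 4) with hτ
  have hτ0 : 0 < τ := lt_min one_pos (by linarith)
  have hτ1 : τ ≤ 1 := min_le_left _ _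
  have h2 := (QQ_deg hd c h (n + 1)).1
  have hlt' : S.natDegree < (QQ c (n + 1)).1.natDegree := by
    rw [h2]
    exact hS
  have h3 : ((QQ c (n + 1)).1 - S).natDegree = d ^ (n + 1) := by
    rw [Polynomial.natDegree_sub_eq_left_of_natDegree_lt hlt', h2]
  have h4 : ((QQ c (n + 1)).1 - S).leadingCoeff = (QQ c (n + 1)).1.leadingCoeff :=
    Polynomial.leadingCoeff_sub_of_degree_lt (Polynomial.degree_lt_degree hlt')
  obtain ⟨x, hx, hx'⟩ := cheb _ (d ^ (n + 1)) h3 (by omega) hab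
  refine ⟨x, hx, ?_⟩
  rw [Polynomial.eval_sub, h4] at hx'
  refine le_trans ?_ hx'
  have h5 : Real.exp (-(-Real.log (μ * τ) * (d : ℝ) ^ (n + 1))) = (μ * τ) ^ (d ^ (n + 1)) := by
    rw [neg_mul, neg_neg, mul_comm, ← Nat.cast_pow, Real.exp_nat_mul, Real.exp_log (by positivity)]
  rw [h5, mul_pow]
  refine mul_le_mul ?_ (pow_le_pow_left₀ hτ0.le (min_le_right _ _) _) (by positivity)
    (abs_nonneg _)
  exact (pow_le_pow_of_le_one hμ0.le hμ1 (Nat.sub_le _ _)).trans (QQ_lc hd c h (n + 1))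

/-- On every interval of the diagonal the `n+1`-st image is somewhere at distance at least
`exp (-κ d ^ (n + 1))` from the diagonal; the same for `x_(n+1) - x_(n-1)`. -/
theorem lower {d : ℕ} (hd : 2 ≤ d) (c : Fin (d + 1) → ℝ) (h : c (Fin.last d) ≠ 0) {a b : ℝ}
    (hab : a < b) : ∃ κ : ℝ, 0 ≤ κ ∧ (∀ n : ℕ, ∃ x ∈ Icc a b,
      Real.exp (-(κ * (d : ℝ) ^ (n + 1))) ≤
        |((hen (pol c) 1)^[n + 1] ⟨x, x⟩).re - ((hen (pol c) 1)^[n + 1] ⟨x, x⟩).im|) ∧
      ∀ n : ℕ, ∃ x ∈ Icc a b, Real.exp (-(κ * (d : ℝ) ^ (n + 1))) ≤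
        |((hen (pol c) 1)^[n + 1] ⟨x, x⟩).re - ((hen (pol c) 1)^[n] ⟨x, x⟩).im| := by
  have hμ0 : 0 < min 1 |c (Fin.last d)| := lt_min one_pos (abs_pos.2 h)
  have hτ0 : 0 < min 1 ((b - a) / 4) := lt_min one_pos (by linarith)
  have hlt : ∀ n, d ^ n < d ^ (n + 1) := fun n =>
    Nat.pow_lt_pow_right (by omega) (Nat.lt_succ_self n)
  refine ⟨-Real.log (min 1 |c (Fin.last d)| * min 1 ((b - a) / 4)), ?_, fun n => ?_, fun n => ?_⟩
  · have := Real.log_nonpos (mul_pos hμ0 hτ0).le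
      (mul_le_one₀ (min_le_left _ _) hτ0.le (min_le_left _ _))
    linarith
  · obtain ⟨x, hx, hx'⟩ := lower_aux hd c h hab n (QQ c (n + 1)).2 (by
      show (QQ c n).1.natDegree < _
      rw [(QQ_deg hd c h n).1]
      exact hlt n)
    exact ⟨x, hx, by rw [QQ_eval]; exact hx'⟩
  · obtain ⟨x, hx, hx'⟩ := lower_aux hd c h hab n (QQ c n).2
      ((QQ_deg hd c h n).2.trans_lt (hlt n))
    exact ⟨x, hx, by rw [QQ_eval, QQ_eval]; exact hx'⟩

end PLYAux

end Pool.Agent.Lib.MP9fa4ca
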