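import Pool.Agent.Lib.MP_9fa4ca_an.Minus
import Pool.Agent.Lib.MP_9fa4ca_an.Fin

section
/-!
# CR/CUT2 : a crosscut on the diagonal gives a cut, with the sides
-/
set_option autoImplicit false

open Set Topology Filter Complex

namespace Pool.Agent.Lib.MP9fa4ca

/-- CUT2. As CUT, for the diagonal, with the sides of the crosscut. -/
theorem cut2 {A : Set ℂ} (Q : Ann A) (s₀ s₁ : ℝ) (hlt : s₀ < s₁)
    (hz₀ : (0 : ℂ) + s₀ * (1 + I) ∉ A) (hnu₀ : Q.nu (0 + s₀ * (1 + I)) ≠ 0)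
    (hz₁ : (0 : ℂ) + s₁ * (1 + I) ∉ A) (hnu₁ : Q.nu (0 + s₁ * (1 + I)) = 0)
    (hseg : ∀ s : ℝ, s₀ < s → s < s₁ → (0 : ℂ) + s * (1 + I) ∈ A) :
    ∃ (θ : ℝ × ℝ → ℝ) (σ : ℝ), Cut θ ∧
      (∀ w, (∃ n : ℤ, θ w = n) ↔ ∃ s : ℝ, s₀ < s ∧ s < s₁ ∧ Q.P w = 0 + s * (1 + I)) ∧
      (σ = 1 ∨ σ = -1) ∧
      ∀ w, 0 < σ * ((Q.P w).re - (Q.P w).im) ↔ 0 < Real.sin (2 * Real.pi * θ w) := by
  have hd : (1 + I : ℂ) ≠ 0 := fun h => by
    have := congrArg Complex.re h
    simp at this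
  obtain ⟨c, hc⟩ : ∃ c : ℂ, c = 0 := ⟨0, rfl⟩
  obtain ⟨d, hd'⟩ : ∃ d : ℂ, d = 1 + I := ⟨1 + I, rfl⟩
  rw [← hc, ← hd'] at hz₀ hnu₀ hz₁ hnu₁
  rw [← hd'] at hd
  simp only [← hc, ← hd'] at hseg
  have hpi := Real.pi_pos
  -- the function `g`
  have hg : Q.Deg (fun z => (z - (c + s₀ * d)) * (z - (c + s₁ * d))⁻¹) (Q.nu (c + s₀ * d)) := by
    have h1 := (Ann.nu_deg (Q := Q) hz₀).mul (Ann.nu_deg (Q := Q) hz₁).inv
    rw [hnu₁, neg_zero, add_zero] at h1
    exact h1
  set m : ℤ := Q.nu (c + s₀ * d) with hm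
  obtain ⟨L, hL, hLe, hLm⟩ := hg
  -- `g` is negative exactly on the segment
  have hneg : ∀ z ∈ A, (∃ r : ℝ, r < 0 ∧ (z - (c + s₀ * d)) * (z - (c + s₁ * d))⁻¹ = r) ↔
      ∃ s : ℝ, s₀ < s ∧ s < s₁ ∧ z = c + s * d := by
    intro z hz
    have hz1 : z - (c + s₁ * d) ≠ 0 := fun h => hz₁ (by rwa [← sub_eq_zero.1 h])
    constructor
    · rintro ⟨r, hr, h⟩
      have h1 : z - (c + s₀ * d) = r * (z - (c + s₁ * d)) := by
        rw [← h, mul_assoc, inv_mul_cancel₀ hz1, mul_one]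
      have hr1 : (1 - r : ℝ) ≠ 0 := by linarith
      have hr1' : (1 - r : ℂ) ≠ 0 := by exact_mod_cast hr1
      refine ⟨(s₀ - r * s₁) / (1 - r), ?_, ?_, ?_⟩
      · rw [lt_div_iff₀ (by linarith)]
        nlinarith
      · rw [div_lt_iff₀ (by linarith)]
        nlinarith
      · push_cast
        field_simp
        linear_combination h1
    · rintro ⟨s, h0, h1, rfl⟩
      refine ⟨(s - s₀) / (s - s₁), div_neg_of_pos_of_neg (by linarith) (by linarith), ?_⟩
      have h2 : (s : ℂ) - s₁ ≠ 0 := by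
        have : s - s₁ ≠ 0 := by linarith
        exact_mod_cast this
      rw [← div_eq_mul_inv]
      push_cast
      have e1 : c + (s : ℂ) * d - (c + s₀ * d) = (s - s₀) * d := by ring
      have e2 : c + (s : ℂ) * d - (c + s₁ * d) = (s - s₁) * d := by ring
      rw [e1, e2, mul_div_mul_right _ _ hd]
  -- the angle
  let ψ : ℝ × ℝ → ℝ := fun w => (L w).im / (2 * Real.pi) - 1 / 2
  have hψ : Continuous ψ := by fun_prop
  have hψT : ∀ w, ψ (T w) = ψ w + m := by
    intro w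
    simp only [ψ]
    rw [hLm]
    have : (L w + m * (2 * Real.pi * I)).im = (L w).im + m * (2 * Real.pi) := by simp
    rw [this]
    field_simp
    ring
  have hψint : ∀ w, (∃ n : ℤ, ψ w = n) ↔ ∃ s : ℝ, s₀ < s ∧ s < s₁ ∧ Q.P w = c + s * d := by
    intro w
    have hLe' : exp (L w) = (Q.P w - (c + s₀ * d)) * (Q.P w - (c + s₁ * d))⁻¹ := hLe w
    rw [← hneg _ (Q.mem w), ← hLe']
    constructor
    · rintro ⟨n, hn⟩
      refine ⟨-Real.exp (L w).re, neg_neg_of_pos (Real.exp_pos _), ?_⟩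
      have h1 : (L w).im = Real.pi + n * (2 * Real.pi) := by
        simp only [ψ] at hn
        field_simp at hn
        linarith
      have h2 : L w = (L w).re + Real.pi * I + n * (2 * Real.pi * I) := by
        apply Complex.ext
        · simp
        · simp [h1]
      rw [h2, exp_add, exp_add, exp_pi_mul_I, exp_int_mul, exp_two_pi_mul_I]
      simp
    · rintro ⟨r, hr, h⟩
      have h1 : exp (L w) = exp ((Real.log (-r) : ℝ) + Real.pi * I) := by
        rw [h, exp_add, exp_pi_mul_I, ← ofReal_exp, Real.exp_log (by linarith)]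
        push_cast
        ring
      obtain ⟨n, hn⟩ := exp_eq_exp_iff_exists_int.1 h1
      refine ⟨n, ?_⟩
      simp only [ψ]
      rw [hn]
      simp
      field_simp
      ring
  -- the lift of the segment
  let ρ : ℝ → ℝ := fun s => s₀ + (s₁ - s₀) * (1 + Real.exp (-s))⁻¹
  have hρc : Continuous ρ := by
    refine continuous_const.add (continuous_const.mul (Continuous.inv₀ (by fun_prop) fun s => ?_))
    have := Real.exp_pos (-s)
    positivity
  have hρ0 : ∀ s, s₀ < ρ s ∧ ρ s < s₁ := by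
    intro s
    have h1 : 0 < (1 + Real.exp (-s))⁻¹ := (kap s).2.1
    have h2 : (1 + Real.exp (-s))⁻¹ < 1 := (kap s).2.2
    simp only [ρ]
    constructor
    · nlinarith
    · nlinarith
  have hρs : ∀ s, s₀ < s → s < s₁ → ∃ x, ρ x = s := by
    intro s h0 h1
    obtain ⟨x, hx⟩ := kap.surjective ⟨(s - s₀) / (s₁ - s₀), div_pos (by linarith) (by linarith),
      (div_lt_one (by linarith)).2 (by linarith)⟩
    refine ⟨x, ?_⟩
    have h2 : (1 + Real.exp (-x))⁻¹ = (s - s₀) / (s₁ - s₀) := congrArg Subtype.val hx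
    simp only [ρ]
    rw [h2]
    have : s₁ - s₀ ≠ 0 := by linarith
    field_simp
    ring
  obtain ⟨v₀, hv₀⟩ := Q.surj (c + ρ 0 * d) (hseg _ (hρ0 0).1 (hρ0 0).2)
  obtain ⟨σ, hσ, hσ0, hσP⟩ := Q.lift ℝ (fun s => c + ρ s * d)
    (by have := hρc; fun_prop) (fun s => hseg _ (hρ0 s).1 (hρ0 s).2) 0 v₀ hv₀
  obtain ⟨j, hj⟩ := int_const (fun s => ψ (σ s)) (hψ.comp hσ)
    (fun s => (hψint _).2 ⟨ρ s, (hρ0 s).1, (hρ0 s).2, hσP s⟩)
  -- all integer values of `ψ`
  have hval : ∀ w, (∃ n : ℤ, ψ w = n) → ∃ (k : ℤ) (s : ℝ), w = ((σ s).1 + k, (σ s).2) := by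
    intro w hw
    obtain ⟨s, h0, h1, h⟩ := (hψint w).1 hw
    obtain ⟨x, hx⟩ := hρs s h0 h1
    have h2 : Q.P (σ x) = Q.P w := by rw [hσP, h, hx]
    obtain ⟨k, hk⟩ := Q.inj _ _ h2
    exact ⟨k, x, hk⟩
  have hval' : ∀ w, (∃ n : ℤ, ψ w = n) → ∃ k : ℤ, ψ w = j + k * m := by
    intro w hw
    obtain ⟨k, s, h⟩ := hval w hw
    refine ⟨k, ?_⟩
    rw [h, CUTAux.iter hψT, hj]
  -- `m = ±1`
  have hsurj : ∃ w, ψ w = j + 1 := by
    have hm' : m ≠ 0 := hnu₀
    have h1 : ψ (σ 0) = j := hj 0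
    have h2 := CUTAux.iter hψT (σ 0) m
    have h3 : (1 : ℝ) ≤ (m : ℝ) * m := by
      have : (1 : ℤ) ≤ m * m := by
        rcases lt_or_gt_of_ne hm' with h | h <;> nlinarith
      exact_mod_cast this
    have h4 : (j : ℝ) + 1 ∈ range ψ := by
      have hpre : IsPreconnected (range ψ) := by
        rw [← image_univ]
        exact isPreconnected_univ.image _ hψ.continuousOn
      exact hpre.ordConnected.out ⟨_, rfl⟩ ⟨_, rfl⟩ ⟨by rw [h1]; linarith, by
        rw [h2, h1]; linarith⟩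
    exact h4
  have hmm : (m : ℝ) * m = 1 := by
    obtain ⟨w, hw⟩ := hsurj
    obtain ⟨k, hk⟩ := hval' w ⟨j + 1, by rw [hw]; push_cast; ring⟩
    have h1 : (k : ℝ) * m = 1 := by linarith
    have h2 : k * m = 1 := by exact_mod_cast h1
    rcases Int.eq_one_or_neg_one_of_mul_eq_one' h2 with ⟨-, h⟩ | ⟨-, h⟩ <;> rw [h] <;> norm_num
  have hm0 : (m : ℝ) ≠ 0 := fun h => by rw [h] at hmm; norm_num at hmm
  have hsgn : (m : ℝ) = 1 ∨ (m : ℝ) = -1 := by
    have h1 : ((m : ℝ) - 1) * (m + 1) = 0 := by linear_combination hmm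
    rcases mul_eq_zero.1 h1 with h | h
    · left
      linarith
    · right
      linarith
  -- the sides
  have hside : ∀ w, ∃ r : ℝ, 0 < r ∧
      Real.sin (2 * Real.pi * (m * (ψ w - j))) = -m * ((Q.P w).re - (Q.P w).im) * r := by
    intro w
    have hLe' : exp (L w) = (Q.P w - (c + s₀ * d)) * (Q.P w - (c + s₁ * d))⁻¹ := hLe w
    have hz1 : Q.P w - (c + s₁ * d) ≠ 0 := fun h => hz₁ (by
      rw [← sub_eq_zero.1 h]
      exact Q.mem w)
    have h1 : (exp (L w)).im = Real.exp (L w).re * Real.sin (L w).im := Complex.exp_im _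
    have h2 : ((Q.P w - (c + s₀ * d)) * (Q.P w - (c + s₁ * d))⁻¹).im =
        (s₁ - s₀) * ((Q.P w).re - (Q.P w).im) / normSq (Q.P w - (c + s₁ * d)) := by
      rw [Complex.mul_im, Complex.inv_re, Complex.inv_im, hc, hd']
      simp
      ring
    have h3 : 0 < normSq (Q.P w - (c + s₁ * d)) := normSq_pos.2 hz1
    have h4 : Real.sin (L w).im = (s₁ - s₀) * ((Q.P w).re - (Q.P w).im) /
        normSq (Q.P w - (c + s₁ * d)) / Real.exp (L w).re := by
      rw [← h2, ← hLe', h1, mul_div_cancel_left₀ _ (Real.exp_pos _).ne']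
    have h5 : Real.sin (2 * Real.pi * ψ w) = -Real.sin (L w).im := by
      have : 2 * Real.pi * ψ w = (L w).im - Real.pi := by
        simp only [ψ]
        field_simp
      rw [this, Real.sin_sub_pi]
    have h6 : Real.sin (2 * Real.pi * (m * (ψ w - j))) = m * Real.sin (2 * Real.pi * ψ w) := by
      have h7 : 2 * Real.pi * ((m : ℝ) * (ψ w - j)) =
          m * (2 * Real.pi * ψ w) - ((m * j : ℤ) : ℝ) * (2 * Real.pi) := by
        push_cast
        ring
      rw [h7, Real.sin_sub_int_mul_two_pi]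
      rcases hsgn with h | h
      · rw [h, one_mul, one_mul]
      · rw [h, neg_one_mul, Real.sin_neg, neg_one_mul]
    refine ⟨(s₁ - s₀) / normSq (Q.P w - (c + s₁ * d)) / Real.exp (L w).re, ?_, ?_⟩
    · have := Real.exp_pos (L w).re
      have : 0 < s₁ - s₀ := by linarith
      positivity
    · rw [h6, h5, h4]
      ring
  refine ⟨fun w => m * (ψ w - j), -m, ⟨by fun_prop, fun w => ?_, ?_⟩, fun w => ?_, ?_, fun w => ?_⟩
  · rw [hψT]
    linear_combination hmm
  · have : {w | (m : ℝ) * (ψ w - j) = 0} = range σ := by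
      ext w
      simp only [mem_ofPred_eq, mem_range]
      constructor
      · intro h
        have h1 : ψ w = j := by
          rcases mul_eq_zero.1 h with h | h
          · exact absurd h hm0
          · linarith
        obtain ⟨k, s, h2⟩ := hval w ⟨j, h1⟩
        have h3 := CUTAux.iter hψT (σ s) k
        rw [← h2, h1, hj s] at h3
        have h4 : (k : ℝ) * m = 0 := by linarith
        have h5 : (k : ℝ) = 0 := (mul_eq_zero.1 h4).resolve_right hm0
        refine ⟨s, ?_⟩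
        rw [h2, h5]
        simp
      · rintro ⟨s, rfl⟩
        rw [hj]
        simp
    rw [this, ← image_univ]
    exact isPreconnected_univ.image _ hσ.continuousOn
  · rw [← hd', ← hc, ← hψint]
    constructor
    · rintro ⟨n, hn⟩
      refine ⟨j + m * n, ?_⟩
      push_cast
      linear_combination m * hn - (ψ w - j) * hmm
    · rintro ⟨n, hn⟩
      refine ⟨m * (n - j), ?_⟩
      beta_reduce
      rw [hn]
      push_cast
      ring
  · rcases hsgn with h | h
    · right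
      rw [h]
    · left
      rw [h]
      norm_num
  · obtain ⟨r, hr, h⟩ := hside w
    beta_reduce
    rw [h]
    constructor
    · intro h1
      exact mul_pos h1 hr
    · intro h1
      exact (pos_iff_pos_of_mul_pos h1).2 hr

end Pool.Agent.Lib.MP9fa4ca
end

section
/-!
# CR/CORE2 : the data of an annular rotation domain with the order of the crosscuts
-/
set_option autoImplicit false

open Set Topology Filter Complex MeasureTheory

namespace Pool.Agent.Lib.MP9fa4ca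

/-- The data of an annular rotation domain: a covering, a lift, a crosscut on the diagonal, the
order of its images. -/
structure Core2 (p : ℝ → ℝ) (A : Set ℂ) (e : ↥A ≃ₜ (Circle × ↥(Ioo (0 : ℝ) 1))) where
  Q : Ann A
  F : ℝ × ℝ ≃ₜ ℝ × ℝ
  s₀ : ℝ
  s₁ : ℝ
  α : ℝ
  θ : ℝ × ℝ → ℝ
  σ : ℝ
  lft : ∀ w, Q.P (F w) = hen p 1 (Q.P w)
  comm : ∀ w, F (T w) = T (F w)
  lt : s₀ < s₁
  seg : ∀ s : ℝ, s₀ < s → s < s₁ → (0 : ℂ) + s * (1 + I) ∈ A
  cut : Cut θ
  int : ∀ w, (∃ n : ℤ, θ w = n) ↔ ∃ s : ℝ, s₀ < s ∧ s < s₁ ∧ Q.P w = 0 + s * (1 + I)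
  sgn : σ = 1 ∨ σ = -1
  side : ∀ w, 0 < σ * ((Q.P w).re - (Q.P w).im) ↔ 0 < Real.sin (2 * Real.pi * θ w)
  pos : ∀ n k : ℤ, 0 < n * α + k → ROTAux.Pos θ F n k
  neg : ∀ n k : ℤ, n * α + k < 0 → ROTAux.Neg θ F n k
  irr : Irrational α
  rot : HasRot p A e α

/-- a point of the zero set moves with the speed `α` -/
theorem bound_of_pos_neg {θ : ℝ × ℝ → ℝ} {F : ℝ × ℝ ≃ₜ ℝ × ℝ} {α : ℝ}
    (hpos : ∀ n k : ℤ, 0 < n * α + k → ROTAux.Pos θ F n k)
    (hneg : ∀ n k : ℤ, n * α + k < 0 → ROTAux.Neg θ F n k) (w : ℝ × ℝ) (hw : θ w = 0) (n : ℕ) :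
    |θ (F^[n] w) - n * α| ≤ 1 := by
  set x := θ (F^[n] w) with hx
  have hxF : θ ((F ^ (n : ℤ)) w) = x := by rw [zpow_natCast, ROTAux.pow_eq_iterate]
  have h1 : (⌊x⌋ : ℝ) ≤ n * α := by
    by_contra hlt
    rw [not_le] at hlt
    have h2 := hneg n (-⌊x⌋) (by push_cast; linarith) w 0 (by rw [hw]; simp)
    rw [hxF] at h2
    push_cast at h2
    linarith [Int.floor_le x]
  have h2 : (n : ℝ) * α ≤ ⌊x⌋ + 1 := by
    by_contra hlt
    rw [not_le] at hlt
    have h2 := hpos n (-(⌊x⌋ + 1)) (by push_cast; linarith) w 0 (by rw [hw]; simp)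
    rw [hxF] at h2
    push_cast at h2
    linarith [Int.lt_floor_add_one x]
  rw [abs_le]
  constructor
  · linarith [Int.floor_le x]
  · linarith [Int.lt_floor_add_one x]

theorem eq_of_bound {x : ℕ → ℝ} {a b : ℝ} (ha : ∀ n : ℕ, |x n - n * a| ≤ 1)
    (hb : ∀ n : ℕ, |x n - n * b| ≤ 1) : a = b := by
  by_contra hne
  have h1 : 0 < |a - b| := abs_pos.2 (sub_ne_zero.2 hne)
  obtain ⟨n, hn⟩ := exists_nat_gt (2 / |a - b|)
  rw [div_lt_iff₀ h1] at hn
  have h2 : (n : ℝ) * |a - b| = |(n : ℝ) * a - n * b| := by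
    rw [← mul_sub, abs_mul, Nat.abs_cast]
  have h3 : |(n : ℝ) * a - n * b| ≤ |x n - n * b| + |x n - n * a| := by
    have := abs_sub (x n - n * b) (x n - n * a)
    have h4 : x n - n * b - (x n - n * a) = n * a - n * b := by ring
    rwa [h4] at this
  have := ha n
  have := hb n
  linarith

theorem exists_core2 (p : ℝ → ℝ) (hp : Continuous p) (A : Set ℂ) (hA : IsOpen A)
    (hb : Bornology.IsBounded A) (e : ↥A ≃ₜ (Circle × ↥(Ioo (0 : ℝ) 1)))
    (hf : ∀ z, hen p 1 z ∈ A ↔ z ∈ A) (hper : ∀ z ∈ A, ∀ n : ℕ, 0 < n → (hen p 1)^[n] z ≠ z) :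
    Nonempty (Core2 p A e) := by
  have hL := specLoc
  have hF := specFar
  have hH := specHne
  have hP := specHcp specLoc specFar
  have hCr := specCrs specLoc specFar
  obtain ⟨Q, hQ⟩ := exists_ann hA e
  have hσ0 : ((1 : ℤ) : ℝ) ≠ 0 := by norm_num
  have hf' : ∀ z, henH p hp ((1 : ℤ) : ℝ) hσ0 z ∈ A ↔ z ∈ A := fun z => by
    rw [henH_apply]
    simpa using hf z
  obtain ⟨F, hFP, k, hk⟩ := Q.exists_lift (henH p hp ((1 : ℤ) : ℝ) hσ0) hf'
  have hFP' : ∀ w, Q.P (F w) = hen p 1 (Q.P w) := fun w => by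
    rw [hFP, henH_apply]
    simp
  obtain ⟨hk1, hne, hinv⟩ := Ann.hole_inv (Q := Q) hH (hcn_of_hcp hP hL) hp (Or.inl rfl) hσ0 hA hb
    hf' F hFP hk
  have hFT : ∀ w, F (T w) = T (F w) := fun w => by
    rw [hk, hk1]
    simp
  -- the crosscut on the diagonal
  obtain ⟨z, hz, hz0⟩ := exists_zero (Ann.isCompact_hole hL hF hA hb) (hP A Q hA hb) hne
    (henH p hp ((1 : ℤ) : ℝ) hσ0) hinv Complex.im (fun z => z.re - z.im) Complex.continuous_im
    (by fun_prop) (fun z _ => by simp)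
  have hd : (1 + I : ℂ) ≠ 0 := fun h => by
    have := congrArg Complex.re h
    simp at this
  have hzd : (0 : ℂ) + (z.re : ℂ) * (1 + I) = z := by
    have : z.re = z.im := by linarith
    apply Complex.ext
    · simp
    · simp [this]
  obtain ⟨s₀, s₁, hlt, h1, h2, h3, h4, h5⟩ := hCr A Q hA hb 0 (1 + I) hd
    ⟨z.re, by rw [hzd]; exact hz⟩
  obtain ⟨θ, σ, hθ, hθi, hσ, hside⟩ := cut2 Q s₀ s₁ hlt h1 h2 h3 h4 h5
  have hr : ∀ s : ℝ, refl (0 + s * (1 + I)) = 0 + s * (1 + I) := fun s => by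
    apply Complex.ext <;> simp [refl]
  have hdiag : ∀ s : ℝ, s₀ < s → s < s₁ → ∀ n : ℕ, 0 < n →
      ((hen p 1)^[n] (0 + s * (1 + I))).re ≠ ((hen p 1)^[n] (0 + s * (1 + I))).im := by
    intro s hs0 hs1 n hn heq
    have h6 := iterate_refl p (0 + s * (1 + I)) n
    have h7 : refl ((hen p 1)^[n] (0 + s * (1 + I))) = (hen p 1)^[n] (0 + s * (1 + I)) := by
      apply Complex.ext
      · exact heq.symm
      · exact heq
    rw [h7, ← Function.iterate_add_apply, hr] at h6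
    exact hper _ (h5 s hs0 hs1) (n + n) (by omega) h6
  have hdd : ∀ n : ℕ, 0 < n → ∀ k : ℤ, ∀ w, θ w = 0 → θ (F^[n] w) ≠ k := by
    intro n hn k w hw hk
    obtain ⟨s, hs0, hs1, hs⟩ := (hθi w).1 ⟨0, by rw [hw]; simp⟩
    obtain ⟨s', -, -, hs'⟩ := (hθi (F^[n] w)).1 ⟨k, hk⟩
    have h6 := hdiag s hs0 hs1 n hn
    rw [← hs, ← iterate_lift Q (hen p 1) F hFP' n w, hs'] at h6
    exact h6 (by simp)
  obtain ⟨α, h, hα, hh, hhT, hhF, hbd⟩ := specRot2 θ hθ F hFT hdd
    (by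
      intro q _ U hU hne hT
      refine recur Q hA hb (henH p hp ((1 : ℤ) : ℝ) hσ0) ?_ hf' F hFP q U hU hne hT
      have := hen_mp p hp ((1 : ℤ) : ℝ) (Or.inl (by norm_num))
      exact this)
  obtain ⟨α', hpos, hneg⟩ := ROTAux.exists_alpha specOrd hθ hFT hdd
  obtain ⟨w₀, hw₀⟩ := ROTAux.exists_zero hθ
  have hαα : α = α' := eq_of_bound (x := fun n => θ (F^[n] w₀)) (hbd w₀ hw₀)
    (bound_of_pos_neg hpos hneg w₀ hw₀)
  subst hαα
  let C : Core p A e := ⟨Q, F, s₀, s₁, α, θ, h, hQ, hFP', hFT, hlt, h1, h2, h3, h4, h5, hθ, hθi,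
    hα, hh, hhT, hhF, hbd, fun w hw => by
      have h8 := Ann.nu_rel hp (Or.inl rfl) hσ0 hf' F hFP hk w hw
      rw [hk1, one_mul, one_mul] at h8
      simpa using h8, hdiag⟩
  exact ⟨⟨Q, F, s₀, s₁, α, θ, σ, hFP', hFT, hlt, h5, hθ, hθi, hσ, hside, hpos, hneg, hα,
    C.hasRot⟩⟩

end Pool.Agent.Lib.MP9fa4ca
end

section
/-!
# CR/ARA : the area between a crosscut and its image
-/
set_option autoImplicit false

open Set Topology Filter Complex MeasureTheory

namespace Pool.Agent.Lib.MP9fa4ca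

open ROTAux

/-- the map as a homeomorphism -/
noncomputable def hf (p : ℝ → ℝ) (hp : Continuous p) : ℂ ≃ₜ ℂ := henH p hp 1 one_ne_zero

theorem hf_apply {p : ℝ → ℝ} (hp : Continuous p) (z : ℂ) : hf p hp z = hen p 1 z := rfl

theorem vol_zpow {p : ℝ → ℝ} (hp : Continuous p) (m : ℤ) (U : Set ℂ) (hU : IsOpen U) :
    volume ((hf p hp ^ m) '' U) = volume U := by
  induction m using Int.induction_on with
  | zero =>
    rw [zpow_zero]
    have : (⇑(1 : ℂ ≃ₜ ℂ)) '' U = U := image_id U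
    rw [this]
  | succ n ih =>
    rw [← ih]
    have h1 : (hf p hp ^ ((n : ℤ) + 1)) '' U = hf p hp '' ((hf p hp ^ (n : ℤ)) '' U) := by
      rw [← image_comp, add_comm, zpow_add, zpow_one]
      rfl
    rw [h1]
    exact volume_image p hp 1 (Or.inl rfl) one_ne_zero _ ((hf p hp ^ (n : ℤ)).isOpenMap U hU)
  | pred n ih =>
    rw [← ih]
    have h1 : (hf p hp ^ (-(n : ℤ))) '' U = hf p hp '' ((hf p hp ^ (-(n : ℤ) - 1)) '' U) := by
      rw [← image_comp]
      have h2 : hf p hp ^ (-(n : ℤ)) = hf p hp * hf p hp ^ (-(n : ℤ) - 1) := by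
        rw [← zpow_one_add]
        congr 1
        ring
      rw [h2]
      rfl
    rw [h1]
    exact (volume_image p hp 1 (Or.inl rfl) one_ne_zero _
      ((hf p hp ^ (-(n : ℤ) - 1)).isOpenMap U hU)).symm

variable {p : ℝ → ℝ} {A : Set ℂ} {e : ↥A ≃ₜ (Circle × ↥(Ioo (0 : ℝ) 1))}

namespace Core2

variable (C : Core2 p A e)

theorem lft_zpow (hp : Continuous p) (n : ℤ) (w : ℝ × ℝ) :
    C.Q.P ((C.F ^ n) w) = (hf p hp ^ n) (C.Q.P w) := by
  induction n using Int.induction_on generalizing w with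
  | zero => simp
  | succ n ih =>
    rw [zpow_add_one, zpow_add_one, Homeomorph.mul_apply, Homeomorph.mul_apply, ih, C.lft]
    rfl
  | pred n ih =>
    rw [zpow_sub_one, zpow_sub_one, Homeomorph.mul_apply, Homeomorph.mul_apply, ih]
    congr 1
    apply (hf p hp).injective
    have h1 := C.lft (C.F⁻¹ w)
    have h2 : C.F (C.F⁻¹ w) = w := by
      rw [← Homeomorph.mul_apply, mul_inv_cancel, Homeomorph.one_apply]
    have h3 : hf p hp ((hf p hp)⁻¹ (C.Q.P w)) = C.Q.P w := by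
      rw [← Homeomorph.mul_apply, mul_inv_cancel, Homeomorph.one_apply]
    rw [h2] at h1
    rw [h3, h1]
    rfl

theorem perz (k : ℤ) (w : ℝ × ℝ) : C.Q.P ((T ^ k) w) = C.Q.P w := by
  induction k using Int.induction_on generalizing w with
  | zero => simp
  | succ n ih => rw [zpow_add_one, Homeomorph.mul_apply, ih, C.Q.per]
  | pred n ih =>
    rw [zpow_sub_one, Homeomorph.mul_apply, ih]
    have h1 := C.Q.per (T⁻¹ w)
    have h2 : T (T⁻¹ w) = w := by
      rw [← Homeomorph.mul_apply, mul_inv_cancel, Homeomorph.one_apply]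
    rw [h2] at h1
    exact h1.symm

theorem inj_zpow (w w' : ℝ × ℝ) (h : C.Q.P w = C.Q.P w') : ∃ k : ℤ, w' = (T ^ k) w := by
  obtain ⟨k, hk⟩ := C.Q.inj w w' h
  refine ⟨k, ?_⟩
  rw [hk]
  clear hk h
  induction k using Int.induction_on generalizing w with
  | zero => simp
  | succ n ih =>
    rw [zpow_add_one, Homeomorph.mul_apply, ← ih]
    simp only [T_apply]
    push_cast
    refine Prod.ext ?_ rfl
    simp only
    ring
  | pred n ih =>
    rw [zpow_sub_one, Homeomorph.mul_apply, ← ih]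
    have h2 : T⁻¹ w = (w.1 - 1, w.2) := rfl
    rw [h2]
    push_cast
    refine Prod.ext ?_ rfl
    simp only
    ring

/-- the region between the `j`-th and the `j+1`-st image of the crosscut -/
def R (n k j : ℤ) : Set (ℝ × ℝ) :=
  {w | ((k * j : ℤ) : ℝ) < C.θ ((C.F ^ (-(n * j))) w) ∧
    C.θ ((C.F ^ (-(n * (j + 1)))) w) < ((k * (j + 1) : ℤ) : ℝ)}

theorem isOpen_R (n k j : ℤ) : IsOpen (C.R n k j) := by
  have hc := C.cut.cont
  exact (isOpen_lt continuous_const (hc.comp (C.F ^ (-(n * j))).continuous)).inter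
    (isOpen_lt (hc.comp (C.F ^ (-(n * (j + 1)))).continuous) continuous_const)

theorem image_sub (hp : Continuous p) (n k j : ℤ) :
    (hf p hp ^ (n * j)) '' (C.Q.P '' C.R n k 0) ⊆ C.Q.P '' C.R n k j := by
  rintro _ ⟨_, ⟨v, ⟨hv1, hv2⟩, rfl⟩, rfl⟩
  refine ⟨(C.F ^ (n * j)) ((T ^ (k * j)) v), ⟨?_, ?_⟩, ?_⟩
  · rw [← Homeomorph.mul_apply, ← zpow_add, neg_add_cancel, zpow_zero, Homeomorph.one_apply,
      theta_T C.cut]
    rw [mul_zero, mul_zero, neg_zero, zpow_zero, Homeomorph.one_apply] at hv1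
    push_cast at hv1 ⊢
    linarith
  · have h1 : -(n * (j + 1)) + n * j = -(n * (0 + 1)) := by ring
    rw [← Homeomorph.mul_apply, ← zpow_add, h1, comm_zpow C.comm, theta_T C.cut]
    push_cast at hv2 ⊢
    linarith
  · rw [C.lft_zpow hp, C.perz]

theorem R_pos {n k j : ℤ} (hj : 0 ≤ j) (hε : 0 < n * C.α + k) {w : ℝ × ℝ} (hw : w ∈ C.R n k j) :
    0 < C.θ w := by
  rcases hj.eq_or_lt with rfl | hj
  · have := hw.1
    rw [mul_zero, mul_zero, neg_zero, zpow_zero, Homeomorph.one_apply] at this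
    simpa using this
  · have h1 := C.pos (n * j) (k * j) (by
      have : (0 : ℝ) < j := by exact_mod_cast hj
      push_cast
      nlinarith) ((C.F ^ (-(n * j))) w) (k * j) hw.1.le
    rw [← Homeomorph.mul_apply, ← zpow_add, add_neg_cancel, zpow_zero, Homeomorph.one_apply] at h1
    linarith

theorem R_lt_one {n k j : ℤ} (hj : (j + 1 : ℝ) * (n * C.α + k) < 1) {w : ℝ × ℝ}
    (hw : w ∈ C.R n k j) : C.θ w < 1 := by
  have h1 := C.neg (n * (j + 1)) (k * (j + 1) - 1) (by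
    push_cast
    linarith) ((C.F ^ (-(n * (j + 1)))) w) (k * (j + 1)) hw.2.le
  rw [← Homeomorph.mul_apply, ← zpow_add, add_neg_cancel, zpow_zero, Homeomorph.one_apply] at h1
  push_cast at h1
  linarith

theorem R_disj {n k i j : ℤ} (hi : 0 ≤ i) (hij : i < j) (hε : 0 < n * C.α + k)
    (hj : (j + 1 : ℝ) * (n * C.α + k) < 1) : Disjoint (C.Q.P '' C.R n k i) (C.Q.P '' C.R n k j) := by
  rw [Set.disjoint_left]
  rintro _ ⟨w, hw, rfl⟩ ⟨w', hw', h⟩
  have hij' : (i : ℝ) < j := by exact_mod_cast hij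
  have h1 := C.R_pos hi hε hw
  have h2 := C.R_pos (by omega) hε hw'
  have h3 := C.R_lt_one (j := i) (by nlinarith) hw
  have h4 := C.R_lt_one hj hw'
  obtain ⟨l, hl⟩ := C.inj_zpow w w' h.symm
  have h5 := theta_T C.cut l w
  rw [← hl] at h5
  have h6 : (l : ℝ) < 1 := by linarith
  have h7 : (-1 : ℝ) < l := by linarith
  have h8 : l = 0 := by
    have h6' : l < 1 := by exact_mod_cast h6
    have h7' : -1 < l := by exact_mod_cast h7
    omega
  rw [h8, zpow_zero, Homeomorph.one_apply] at hl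
  subst hl
  have h9 := hw.2
  have h10 := hw'.1
  rcases (show i + 1 ≤ j by omega).eq_or_lt with h | h
  · rw [← h] at h10
    linarith
  · have h11 := C.pos (n * (j - i - 1)) (k * (j - i - 1)) (by
      have h12 : (0 : ℝ) < j - i - 1 := by
        have : (0 : ℤ) < j - i - 1 := by omega
        exact_mod_cast this
      push_cast
      nlinarith) ((C.F ^ (-(n * j))) w') (k * j) h10.le
    rw [← Homeomorph.mul_apply, ← zpow_add] at h11
    have h13 : n * (j - i - 1) + -(n * j) = -(n * (i + 1)) := by ring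
    rw [h13] at h11
    push_cast at h9 h11
    linarith

/-- The area between a crosscut and its image. -/
theorem area (hp : Continuous p) (n k : ℤ) (hε : 0 < n * C.α + k) (N : ℕ)
    (hN : N * (n * C.α + k) < 1) : N * volume (C.Q.P '' C.R n k 0) ≤ volume A := by
  have hop : ∀ j : ℤ, IsOpen (C.Q.P '' C.R n k j) := fun j => C.Q.opn _ (C.isOpen_R n k j)
  have h1 : ∀ j : ℤ, volume (C.Q.P '' C.R n k 0) ≤ volume (C.Q.P '' C.R n k j) := fun j => by
    rw [← vol_zpow hp (n * j) _ (hop 0)]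
    exact measure_mono (C.image_sub hp n k j)
  have h2 : ∀ i j : ℕ, i < j → j < N →
      Disjoint (C.Q.P '' C.R n k i) (C.Q.P '' C.R n k j) := by
    intro i j hij hj
    refine C.R_disj (by omega) (by omega) hε ?_
    have h3 : ((j : ℤ) + 1 : ℝ) ≤ N := by
      have : j + 1 ≤ N := hj
      exact_mod_cast this
    have h4 := mul_le_mul_of_nonneg_right h3 hε.le
    linarith
  have h3 : volume (⋃ j ∈ Finset.range N, C.Q.P '' C.R n k (j : ℤ)) =
      ∑ j ∈ Finset.range N, volume (C.Q.P '' C.R n k (j : ℤ)) := by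
    refine measure_biUnion_finset ?_ fun j _ => (hop j).measurableSet
    intro i hi j hj hij
    rcases lt_or_gt_of_ne hij with h | h
    · exact h2 i j h (Finset.mem_range.1 hj)
    · exact (h2 j i h (Finset.mem_range.1 hi)).symm
  calc N * volume (C.Q.P '' C.R n k 0) = ∑ j ∈ Finset.range N, volume (C.Q.P '' C.R n k 0) := by
        simp
    _ ≤ ∑ j ∈ Finset.range N, volume (C.Q.P '' C.R n k (j : ℤ)) :=
        Finset.sum_le_sum fun j _ => h1 j
    _ = volume (⋃ j ∈ Finset.range N, C.Q.P '' C.R n k (j : ℤ)) := h3.symm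
    _ ≤ volume A := measure_mono (iUnion₂_subset fun j _ => by
        rintro _ ⟨w, -, rfl⟩
        exact C.Q.mem w)

end Core2

end Pool.Agent.Lib.MP9fa4ca
end

section
/-!
# CR/HLF : a half ball between a crosscut and its image
-/
set_option autoImplicit false

open Set Topology Filter Complex MeasureTheory

namespace Pool.Agent.Lib.MP9fa4ca

open ROTAux

variable {p : ℝ → ℝ} {A : Set ℂ} {e : ↥A ≃ₜ (Circle × ↥(Ioo (0 : ℝ) 1))}

namespace Core2

variable (C : Core2 p A e)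

theorem disj_unit (g : ℝ × ℝ → ℝ) :
    Disjoint (C.Q.P '' {w | 0 < C.θ w ∧ C.θ w < 1 ∧ g w < 0})
      (C.Q.P '' {w | 0 < C.θ w ∧ C.θ w < 1 ∧ 0 < g w}) := by
  rw [Set.disjoint_left]
  rintro _ ⟨w, ⟨h1, h2, h3⟩, rfl⟩ ⟨w', ⟨h1', h2', h3'⟩, h⟩
  obtain ⟨l, hl⟩ := C.inj_zpow w w' h.symm
  have h5 := theta_T C.cut l w
  rw [← hl] at h5
  have h6 : (l : ℝ) < 1 := by linarith
  have h7 : (-1 : ℝ) < l := by linarith
  have h8 : l = 0 := by
    have h6' : l < 1 := by exact_mod_cast h6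
    have h7' : -1 < l := by exact_mod_cast h7
    omega
  rw [h8, zpow_zero, Homeomorph.one_apply] at hl
  subst hl
  linarith

theorem half (hp : Continuous p) (n k : ℤ) (hε : 0 < n * C.α + k) (s r : ℝ) (hs0 : C.s₀ < s)
    (hs1 : s < C.s₁) (hr : 0 < r) (hball : Metric.ball ((0 : ℂ) + s * (1 + I)) r ⊆ A)
    (hdis : ∀ s' : ℝ, C.s₀ < s' → s' < C.s₁ →
      (hf p hp ^ n) (0 + s' * (1 + I)) ∉ Metric.ball ((0 : ℂ) + s * (1 + I)) r) :
    ENNReal.ofReal (r / 8) ^ 2 * NNReal.pi ≤ volume (C.Q.P '' C.R n k 0) := by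
  set z : ℂ := 0 + s * (1 + I) with hz
  have hzd : z.re - z.im = 0 := by rw [hz]; simp
  have hσσ : C.σ * C.σ = 1 := by
    rcases C.sgn with h | h <;> rw [h] <;> norm_num
  have hσa : |C.σ| = 1 := by
    rcases C.sgn with h | h <;> rw [h] <;> norm_num
  have hnI : ‖(1 - I : ℂ)‖ ≤ 3 / 2 := by
    have h1 : ‖(1 - I : ℂ)‖ ^ 2 = 2 := by
      rw [← Complex.normSq_eq_norm_sq, Complex.normSq_apply]
      simp
      norm_num
    nlinarith [norm_nonneg (1 - I : ℂ)]
  -- the points `z + σ t (1 - I)`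
  have hpt : ∀ t : ℝ, 0 < t → ‖(C.σ * t : ℝ) * (1 - I : ℂ)‖ ≤ 3 / 2 * t := by
    intro t ht
    rw [norm_mul, Complex.norm_real, Real.norm_eq_abs, abs_mul, hσa, one_mul, abs_of_pos ht]
    nlinarith
  have hpt2 : ∀ t : ℝ, C.σ * ((z + (C.σ * t : ℝ) * (1 - I : ℂ)).re -
      (z + (C.σ * t : ℝ) * (1 - I : ℂ)).im) = 2 * t := by
    intro t
    simp only [Complex.add_re, Complex.add_im, Complex.mul_re, Complex.mul_im, Complex.sub_re,
      Complex.sub_im, Complex.ofReal_re, Complex.ofReal_im, Complex.one_re, Complex.one_im,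
      Complex.I_re, Complex.I_im]
    linear_combination C.σ * hzd + 2 * t * hσσ
  -- the lift of `z`
  obtain ⟨w₀, hw₀⟩ := C.Q.surj z (hball (Metric.mem_ball_self hr))
  obtain ⟨l, hl⟩ := (C.int w₀).2 ⟨s, hs0, hs1, hw₀⟩
  set wz := (T ^ (-l)) w₀ with hwz
  have hPz : C.Q.P wz = z := by rw [hwz, C.perz, hw₀]
  have hθz : C.θ wz = 0 := by
    rw [hwz, theta_T C.cut, hl]
    push_cast
    ring
  set g : ℝ × ℝ → ℝ := fun w => C.θ ((C.F ^ (-n)) w) - k with hg
  have hgc : Continuous g := (C.cut.cont.comp (C.F ^ (-n)).continuous).sub continuous_const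
  have hgz : g wz < 0 := by
    have h1 := C.neg (-n) (-k) (by push_cast; linarith) wz 0 (by rw [hθz]; simp)
    simp only [hg]
    push_cast at h1
    linarith
  set H : Set ℂ := Metric.ball z r ∩ {z' | 0 < C.σ * (z'.re - z'.im)} with hH
  have hHconv : Convex ℝ H := by
    refine (convex_ball z r).inter (convex_halfSpace_gt (f := fun z' : ℂ =>
      C.σ * (z'.re - z'.im)) ⟨fun x y => ?_, fun c x => ?_⟩ 0)
    · simp
      ring
    · simp
      ring
  -- the cover
  have hcov : H ⊆ C.Q.P '' {w | 0 < C.θ w ∧ C.θ w < 1 ∧ g w < 0} ∪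
      C.Q.P '' {w | 0 < C.θ w ∧ C.θ w < 1 ∧ 0 < g w} := by
    rintro z' ⟨hz'1, hz'2⟩
    obtain ⟨w₁, hw₁⟩ := C.Q.surj z' (hball hz'1)
    set w := (T ^ (-⌊C.θ w₁⌋)) w₁ with hw
    have hPw : C.Q.P w = z' := by rw [hw, C.perz, hw₁]
    have hθw : C.θ w = Int.fract (C.θ w₁) := by
      rw [hw, theta_T C.cut, Int.fract]
      push_cast
      ring
    have h0 : 0 ≤ C.θ w := by rw [hθw]; exact Int.fract_nonneg _
    have h1 : C.θ w < 1 := by rw [hθw]; exact Int.fract_lt_one _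
    have h2 : 0 < C.θ w := by
      refine lt_of_le_of_ne h0 fun h => ?_
      have h3 := (C.side w).1 (by rw [hPw]; exact hz'2)
      rw [← h] at h3
      simp at h3
    have h3 : g w ≠ 0 := by
      intro h
      obtain ⟨s', hs'0, hs'1, hs'⟩ := (C.int ((C.F ^ (-n)) w)).1 ⟨k, by simp only [hg] at h; linarith⟩
      apply hdis s' hs'0 hs'1
      rw [← hs', C.lft_zpow hp, ← Homeomorph.mul_apply, ← zpow_add, add_neg_cancel, zpow_zero,
        Homeomorph.one_apply, hPw]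
      exact hz'1
    rcases lt_or_gt_of_ne h3 with h | h
    · left
      exact ⟨w, ⟨h2, h1, h⟩, hPw⟩
    · right
      exact ⟨w, ⟨h2, h1, h⟩, hPw⟩
  have hc := C.cut.cont
  have hopen1 : IsOpen (C.Q.P '' {w | 0 < C.θ w ∧ C.θ w < 1 ∧ g w < 0}) :=
    C.Q.opn _ ((isOpen_lt continuous_const hc).inter ((isOpen_lt hc continuous_const).inter
      (isOpen_lt hgc continuous_const)))
  have hopen2 : IsOpen (C.Q.P '' {w | 0 < C.θ w ∧ C.θ w < 1 ∧ 0 < g w}) :=
    C.Q.opn _ ((isOpen_lt continuous_const hc).inter ((isOpen_lt hc continuous_const).inter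
      (isOpen_lt continuous_const hgc)))
  have hne : (H ∩ C.Q.P '' {w | 0 < C.θ w ∧ C.θ w < 1 ∧ g w < 0}).Nonempty := by
    have hWo : IsOpen {w | g w < 0 ∧ |C.θ w| < 1 / 2} :=
      (isOpen_lt hgc continuous_const).inter (isOpen_lt hc.abs continuous_const)
    have hzW : z ∈ C.Q.P '' {w | g w < 0 ∧ |C.θ w| < 1 / 2} :=
      ⟨wz, ⟨hgz, by rw [hθz]; norm_num⟩, hPz⟩
    obtain ⟨δ, hδ, hδs⟩ := Metric.isOpen_iff.1 (C.Q.opn _ hWo) z hzW
    set t := min δ r / 4 with ht
    have hm : 0 < min δ r := lt_min hδ hr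
    have ht0 : 0 < t := by positivity
    have h1 := hpt t ht0
    have h2 := hpt2 t
    set z' := z + (C.σ * t : ℝ) * (1 - I : ℂ) with hz'
    have h3 : dist z' z ≤ 3 / 2 * t := by
      rw [hz', dist_eq_norm, add_sub_cancel_left]
      exact h1
    have h4 : z' ∈ Metric.ball z δ := by
      rw [Metric.mem_ball]
      have := min_le_left δ r
      linarith
    have h5 : z' ∈ Metric.ball z r := by
      rw [Metric.mem_ball]
      have := min_le_right δ r
      linarith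
    have h6 : 0 < C.σ * (z'.re - z'.im) := by
      rw [h2]
      linarith
    obtain ⟨w, ⟨hw1, hw2⟩, hw3⟩ := hδs h4
    refine ⟨z', ⟨h5, h6⟩, w, ⟨?_, ?_, hw1⟩, hw3⟩
    · by_contra hcon
      rw [not_lt] at hcon
      have h7 := (C.side w).1 (by rw [hw3]; exact h6)
      have h8 := (abs_lt.1 hw2).1
      have hpi := Real.pi_pos
      have h9 := Real.sin_nonpos_of_nonpos_of_neg_pi_le (x := 2 * Real.pi * C.θ w)
        (by nlinarith) (by nlinarith)
      linarith
    · have := (abs_lt.1 hw2).2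
      linarith
  have hsub := IsPreconnected.subset_left_of_subset_union hopen1 hopen2 (C.disj_unit g) hcov hne
    hHconv.isPreconnected
  -- the small ball
  have hr4 : 0 < r / 4 := by positivity
  set c' := z + (C.σ * (r / 4) : ℝ) * (1 - I : ℂ) with hc'
  have hsmall : Metric.ball c' (r / 8) ⊆ H := by
    intro y hy
    rw [Metric.mem_ball, dist_eq_norm] at hy
    have h1 := hpt (r / 4) hr4
    have h2 := hpt2 (r / 4)
    rw [← hc'] at h2
    refine ⟨?_, ?_⟩
    · rw [Metric.mem_ball, dist_eq_norm]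
      have h3 : y - z = (y - c') + (C.σ * (r / 4) : ℝ) * (1 - I : ℂ) := by
        rw [hc']
        ring
      rw [h3]
      refine (norm_add_le _ _).trans_lt ?_
      linarith
    · show 0 < C.σ * (y.re - y.im)
      have h3 : C.σ * (y.re - y.im) = 2 * (r / 4) + C.σ * ((y - c').re - (y - c').im) := by
        rw [← h2]
        simp only [Complex.sub_re, Complex.sub_im]
        ring
      have h4 : |C.σ * ((y - c').re - (y - c').im)| ≤ 2 * ‖y - c'‖ := by
        rw [abs_mul, hσa, one_mul]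
        have h5 := abs_sub ((y - c').re) ((y - c').im)
        have h6 := Complex.abs_re_le_norm (y - c')
        have h7 := Complex.abs_im_le_norm (y - c')
        linarith
      have h5 := (abs_le.1 h4).1
      rw [h3]
      linarith
  calc ENNReal.ofReal (r / 8) ^ 2 * NNReal.pi = volume (Metric.ball c' (r / 8)) :=
        (Complex.volume_ball c' (r / 8)).symm
    _ ≤ volume (C.Q.P '' C.R n k 0) := by
        refine measure_mono ((hsmall.trans hsub).trans (image_mono ?_))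
        rintro w ⟨h1, -, h3⟩
        refine ⟨?_, ?_⟩
        · rw [mul_zero, mul_zero, neg_zero, zpow_zero, Homeomorph.one_apply]
          simpa using h1
        · simp only [hg] at h3
          rw [zero_add, mul_one, mul_one]
          linarith

end Core2

end Pool.Agent.Lib.MP9fa4ca
end
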