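import Pool.Agent.Lib.MP_9fa4ca_an.Minus
import Mathlib.Analysis.Calculus.MeanValue
import Pool.Agent.Lib.MP_9fa4ca_an.CR.HLF
import Pool.Agent.Lib.MP_9fa4ca_an.CR.CHB
import Pool.Agent.Lib.MP_9fa4ca_an.Fin3

section
/-!
# CR/LIP : the iterates are Lipschitz on convex parts of `A`
-/
set_option autoImplicit false

open Set Topology Filter Complex

namespace Pool.Agent.Lib.MP9fa4ca

theorem hen_fderiv {p : ℝ → ℝ} (hp : Differentiable ℝ p) (z : ℂ) :
    ∃ D : ℂ →L[ℝ] ℂ, HasFDerivAt (hen p 1) D z ∧ ‖D‖ ≤ |deriv p z.re| + 2 := by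
  have h1 : HasFDerivAt (fun z : ℂ => p z.re) ((deriv p z.re) • Complex.reCLM) z :=
    (hp z.re).hasDerivAt.comp_hasFDerivAt z Complex.reCLM.hasFDerivAt
  have h2 : HasFDerivAt (fun z : ℂ => p z.re - z.im)
      ((deriv p z.re) • Complex.reCLM - Complex.imCLM) z := h1.sub Complex.imCLM.hasFDerivAt
  have h3 : HasFDerivAt (fun z : ℂ => ((p z.re - z.im : ℝ) : ℂ) + z.re • I)
      (Complex.ofRealCLM.comp ((deriv p z.re) • Complex.reCLM - Complex.imCLM) +
        Complex.reCLM.smulRight I) z :=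
    (Complex.ofRealCLM.hasFDerivAt.comp z h2).add
      (Complex.reCLM.smulRight I).hasFDerivAt
  have h4 : hen p 1 = fun z : ℂ => ((p z.re - z.im : ℝ) : ℂ) + z.re • I := by
    funext z
    apply Complex.ext
    · simp
    · simp
  refine ⟨_, by rw [h4]; exact h3, ?_⟩
  refine ContinuousLinearMap.opNorm_le_bound _ (by positivity) fun v => ?_
  have h5 : (Complex.ofRealCLM.comp ((deriv p z.re) • Complex.reCLM - Complex.imCLM) +
        Complex.reCLM.smulRight I) v = ((deriv p z.re * v.re - v.im : ℝ) : ℂ) + v.re • I := rfl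
  rw [h5]
  have h6 := Complex.abs_re_le_norm v
  have h7 := Complex.abs_im_le_norm v
  have h8 : ‖((deriv p z.re * v.re - v.im : ℝ) : ℂ)‖ ≤ |deriv p z.re| * ‖v‖ + ‖v‖ := by
    rw [Complex.norm_real, Real.norm_eq_abs]
    refine (abs_sub _ _).trans ?_
    rw [abs_mul]
    have := mul_le_mul_of_nonneg_left h6 (abs_nonneg (deriv p z.re))
    linarith
  have h9 : ‖v.re • I‖ ≤ ‖v‖ := by
    rw [norm_smul, Complex.norm_I, mul_one, Real.norm_eq_abs]
    exact h6
  refine (norm_add_le _ _).trans ?_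
  linarith

theorem iter_fderiv {p : ℝ → ℝ} (hp : Differentiable ℝ p) {A : Set ℂ}
    (hinv : ∀ z ∈ A, hen p 1 z ∈ A) {M : ℝ} (hM : ∀ z ∈ A, |deriv p z.re| ≤ M) (n : ℕ) :
    ∀ z ∈ A, ∃ D : ℂ →L[ℝ] ℂ, HasFDerivAt ((hen p 1)^[n]) D z ∧ ‖D‖ ≤ (M + 2) ^ n := by
  induction n with
  | zero =>
    intro z _
    refine ⟨ContinuousLinearMap.id ℝ ℂ, hasFDerivAt_id z, ?_⟩
    rw [pow_zero]
    exact ContinuousLinearMap.norm_id_le
  | succ n ih =>
    intro z hz
    obtain ⟨D, hD, hDn⟩ := hen_fderiv hp z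
    obtain ⟨D', hD', hDn'⟩ := ih _ (hinv z hz)
    refine ⟨D'.comp D, ?_, ?_⟩
    · rw [Function.iterate_succ]
      exact hD'.comp z hD
    · refine (D'.opNorm_comp_le D).trans ?_
      rw [pow_succ]
      have h1 : 0 ≤ (M + 2) ^ n := (norm_nonneg D').trans hDn'
      exact mul_le_mul hDn' (hDn.trans (by linarith [hM z hz])) (norm_nonneg D) h1

theorem iter_lip {p : ℝ → ℝ} (hp : Differentiable ℝ p) {A : Set ℂ}
    (hinv : ∀ z ∈ A, hen p 1 z ∈ A) {M : ℝ} (hM : ∀ z ∈ A, |deriv p z.re| ≤ M) {B : Set ℂ}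
    (hB : Convex ℝ B) (hBA : B ⊆ A) (n : ℕ) {x y : ℂ} (hx : x ∈ B) (hy : y ∈ B) :
    ‖(hen p 1)^[n] y - (hen p 1)^[n] x‖ ≤ (M + 2) ^ n * ‖y - x‖ := by
  choose! D hD hDn using iter_fderiv hp hinv hM n
  exact hB.norm_image_sub_le_of_norm_hasFDerivWithin_le
    (fun z hz => (hD z (hBA hz)).hasFDerivWithinAt) (fun z hz => hDn z (hBA hz)) hx hy

end Pool.Agent.Lib.MP9fa4ca
end

section
/-!
# CR/SEP : the crosscut and its `q`-th image are separated
-/
set_option autoImplicit false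

open Set Topology Filter Complex MeasureTheory

namespace Pool.Agent.Lib.MP9fa4ca

theorem diag_eq (s : ℝ) : (0 : ℂ) + s * (1 + I) = ⟨s, s⟩ := by
  apply Complex.ext <;> simp

theorem refl_diag (s : ℝ) : refl ⟨s, s⟩ = ⟨s, s⟩ := rfl

theorem refl_isometry (z w : ℂ) : ‖refl z - refl w‖ = ‖z - w‖ := by
  have h : ‖refl z - refl w‖ ^ 2 = ‖z - w‖ ^ 2 := by
    rw [← Complex.normSq_eq_norm_sq, ← Complex.normSq_eq_norm_sq, Complex.normSq_apply,
      Complex.normSq_apply]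
    simp [refl]
    ring
  have h1 := norm_nonneg (refl z - refl w)
  have h2 := norm_nonneg (z - w)
  nlinarith

theorem same_sign {g : ℝ → ℝ} (hg : Continuous g) {u v : ℝ} (h : ∀ s, u < s → s < v → g s ≠ 0)
    {x y : ℝ} (hx : x ∈ Ioo u v) (hy : y ∈ Ioo u v) : |g x| ≤ |g x + g y| := by
  have h0 : (0 : ℝ) ∉ uIcc (g x) (g y) := by
    intro h1
    obtain ⟨s, hs, hs0⟩ := intermediate_value_uIcc (f := g) hg.continuousOn h1
    have h2 : s ∈ Ioo u v := ordConnected_Ioo.uIcc_subset hx hy hs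
    exact h s h2.1 h2.2 hs0
  rw [mem_uIcc, not_or, not_and_or, not_and_or, not_le, not_le, not_le, not_le] at h0
  obtain ⟨h1, h2⟩ := h0
  rcases lt_trichotomy (g x) 0 with hx0 | hx0 | hx0
  · have hy0 : g y < 0 := by
      rcases h1 with h1 | h1
      · linarith
      · exact h1
    rw [abs_of_neg hx0, abs_of_neg (by linarith)]
    linarith
  · rw [hx0, abs_zero]
    exact abs_nonneg _
  · have hy0 : 0 < g y := by
      rcases h2 with h2 | h2
      · exact h2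
      · linarith
    rw [abs_of_pos hx0, abs_of_pos (by linarith)]
    linarith

theorem hen_injective (p : ℝ → ℝ) : Function.Injective (hen p 1) := by
  intro z w h
  have h1 := congrArg Complex.re h
  have h2 := congrArg Complex.im h
  simp only [hen_re, hen_im, one_mul] at h1 h2
  apply Complex.ext h2
  rw [h2] at h1
  linarith

theorem continuous_hen {p : ℝ → ℝ} (hp : Continuous p) : Continuous (hen p 1) :=
  (henH p hp 1 one_ne_zero).continuous

/-- the distance from the diagonal, along the images of the crosscut -/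
theorem diag_ne {p : ℝ → ℝ} {A : Set ℂ} (hA : IsARD p A) {s : ℝ} (hs : (⟨s, s⟩ : ℂ) ∈ A) {n : ℕ}
    (hn : 0 < n) : ((hen p 1)^[n] ⟨s, s⟩).re - ((hen p 1)^[n] ⟨s, s⟩).im ≠ 0 := by
  intro heq
  have h6 := iterate_refl p ⟨s, s⟩ n
  have h7 : refl ((hen p 1)^[n] ⟨s, s⟩) = (hen p 1)^[n] ⟨s, s⟩ := by
    apply Complex.ext
    · simp only [refl]
      linarith
    · simp only [refl]
      linarith
  rw [h7, ← Function.iterate_add_apply, refl_diag] at h6
  exact hA.per _ hs (n + n) (by omega) h6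

theorem hen_refl_mk (p : ℝ → ℝ) (y : ℂ) : hen p 1 (refl y) = ⟨p y.im - y.re, y.im⟩ := by
  apply Complex.ext <;> simp [refl]

theorem step_ne {p : ℝ → ℝ} {A : Set ℂ} (hA : IsARD p A) {s : ℝ} (hs : (⟨s, s⟩ : ℂ) ∈ A) (n : ℕ) :
    ((hen p 1)^[n + 1] ⟨s, s⟩).re - ((hen p 1)^[n] ⟨s, s⟩).im ≠ 0 := by
  intro heq
  set y := (hen p 1)^[n + 1] ⟨s, s⟩ with hy
  have h1 : y.re = p ((hen p 1)^[n] ⟨s, s⟩).re - ((hen p 1)^[n] ⟨s, s⟩).im := by
    rw [hy, Function.iterate_succ_apply', hen_re, one_mul]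
  have h2 : y.im = ((hen p 1)^[n] ⟨s, s⟩).re := by
    rw [hy, Function.iterate_succ_apply', hen_im]
  have h3 : hen p 1 (refl y) = y := by
    rw [hen_refl_mk]
    apply Complex.ext
    · show p y.im - y.re = y.re
      rw [h2]
      linarith
    · rfl
  have h4 := iterate_refl p ⟨s, s⟩ (n + 1)
  rw [← hy, refl_diag, Function.iterate_succ_apply, h3, hy, ← Function.iterate_add_apply] at h4
  exact hA.per _ hs (n + (n + 1)) (by omega) h4

/-- The separation of a point `z` of the crosscut from the `q`-th preimage of the crosscut. -/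
theorem sep {p : ℝ → ℝ} (hpd : Differentiable ℝ p) {A : Set ℂ} (hA : IsARD p A) {u v M : ℝ}
    (hM0 : 0 ≤ M) (hM : ∀ z ∈ A, |deriv p z.re| ≤ M)
    (hseg : ∀ s : ℝ, u < s → s < v → (⟨s, s⟩ : ℂ) ∈ A) (n : ℕ) {x : ℝ} (hx : x ∈ Ioo u v) {r : ℝ}
    (hr0 : 0 < r) (hball : Metric.ball (⟨x, x⟩ : ℂ) r ⊆ A) {w : ℂ}
    (hw : w ∈ Metric.ball (⟨x, x⟩ : ℂ) r) {s : ℝ} (hs : s ∈ Ioo u v) :
    ((hen p 1)^[2 * (n + 1)] w = ⟨s, s⟩ →
      |((hen p 1)^[n + 1] ⟨x, x⟩).re - ((hen p 1)^[n + 1] ⟨x, x⟩).im| <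
        2 * (M + 2) ^ (n + 1) * r) ∧
    ((hen p 1)^[2 * n + 1] w = ⟨s, s⟩ →
      |((hen p 1)^[n + 1] ⟨x, x⟩).re - ((hen p 1)^[n] ⟨x, x⟩).im| <
        2 * (M + 2) ^ (n + 1) * r) := by
  have hp := hpd.continuous
  have hinv : ∀ z ∈ A, hen p 1 z ∈ A := fun z hz => (hA.inv z).2 hz
  have hlip : ∀ j : ℕ, ‖(hen p 1)^[j] w - (hen p 1)^[j] ⟨x, x⟩‖ ≤ (M + 2) ^ j * ‖w - ⟨x, x⟩‖ :=
    fun j => iter_lip hpd hinv hM (convex_ball _ r) hball j (Metric.mem_ball_self hr0) hw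
  have hwr : ‖w - ⟨x, x⟩‖ < r := by
    rw [← dist_eq_norm]
    exact hw
  have hMp : 0 < (M + 2) ^ (n + 1) := by positivity
  have hlt : (M + 2) ^ (n + 1) * ‖w - ⟨x, x⟩‖ < (M + 2) ^ (n + 1) * r := by gcongr
  have hcd : Continuous fun s : ℝ => (⟨s, s⟩ : ℂ) := continuous_mk continuous_id continuous_id
  have hcj : ∀ j : ℕ, Continuous fun s : ℝ => (hen p 1)^[j] (⟨s, s⟩ : ℂ) := fun j =>
    ((continuous_hen hp).iterate j).comp hcd
  constructor
  · intro heq
    -- the even case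
    have h1 : (hen p 1)^[n + 1] w = refl ((hen p 1)^[n + 1] ⟨s, s⟩) := by
      apply (hen_injective p).iterate (n + 1)
      rw [iterate_refl, refl_diag, ← Function.iterate_add_apply]
      rw [show n + 1 + (n + 1) = 2 * (n + 1) by ring]
      exact heq
    have h2 := same_sign (g := fun s : ℝ => ((hen p 1)^[n + 1] (⟨s, s⟩ : ℂ)).re -
      ((hen p 1)^[n + 1] (⟨s, s⟩ : ℂ)).im)
      ((Complex.continuous_re.comp (hcj (n + 1))).sub (Complex.continuous_im.comp (hcj (n + 1))))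
      (fun s h1 h2 => diag_ne hA (hseg s h1 h2) (by omega)) hx hs
    beta_reduce at h2
    have h3 := hlip (n + 1)
    set X := (hen p 1)^[n + 1] (⟨x, x⟩ : ℂ) with hX
    set Y := (hen p 1)^[n + 1] (⟨s, s⟩ : ℂ) with hY
    rw [h1] at h3
    have h4 : X.re - X.im + (Y.re - Y.im) = (refl Y - X).im - (refl Y - X).re := by
      simp [refl]
      ring
    rw [h4] at h2
    have h5 := Complex.abs_re_le_norm (refl Y - X)
    have h6 := Complex.abs_im_le_norm (refl Y - X)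
    have h7 := abs_sub ((refl Y - X).im) ((refl Y - X).re)
    linarith
  · intro heq
    have h1 : (hen p 1)^[n + 1] w = hen p 1 (refl ((hen p 1)^[n + 1] ⟨s, s⟩)) := by
      apply (hen_injective p).iterate n
      rw [← Function.iterate_succ_apply, iterate_refl, refl_diag, ← Function.iterate_add_apply]
      rw [show n + (n + 1) = 2 * n + 1 by ring]
      exact heq
    have h2 := same_sign (g := fun s : ℝ => ((hen p 1)^[n + 1] (⟨s, s⟩ : ℂ)).re -
      ((hen p 1)^[n] (⟨s, s⟩ : ℂ)).im)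
      ((Complex.continuous_re.comp (hcj (n + 1))).sub (Complex.continuous_im.comp (hcj n)))
      (fun s h1 h2 => step_ne hA (hseg s h1 h2) n) hx hs
    beta_reduce at h2
    have h3 := hlip (n + 1)
    have h3' := hlip n
    have e1 : ∀ v : ℂ, ((hen p 1)^[n + 1] v).re = p ((hen p 1)^[n] v).re - ((hen p 1)^[n] v).im :=
      fun v => by rw [Function.iterate_succ_apply', hen_re, one_mul]
    have e2 : ∀ v : ℂ, ((hen p 1)^[n + 1] v).im = ((hen p 1)^[n] v).re :=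
      fun v => by rw [Function.iterate_succ_apply', hen_im]
    set X := (hen p 1)^[n + 1] (⟨x, x⟩ : ℂ) with hX
    set X' := (hen p 1)^[n] (⟨x, x⟩ : ℂ) with hX'
    set Y := (hen p 1)^[n + 1] (⟨s, s⟩ : ℂ) with hY
    set Y' := (hen p 1)^[n] (⟨s, s⟩ : ℂ) with hY'
    set W := (hen p 1)^[n + 1] w with hW
    set W' := (hen p 1)^[n] w with hW'
    -- `W.re - W'.im = -(Y.re - Y'.im)`
    have f1 : W.re = p Y.im - Y.re := by rw [h1, hen_refl_mk]
    have f2 : W.im = Y.im := by rw [h1, hen_refl_mk]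
    have f3 : W.re = p W'.re - W'.im := e1 w
    have f4 : W.im = W'.re := e2 w
    have f5 : Y.re = p Y'.re - Y'.im := e1 ⟨s, s⟩
    have f6 : Y.im = Y'.re := e2 ⟨s, s⟩
    have f7 : W'.im = Y.re := by
      have : p W'.re = p Y.im := by rw [← f4, f2]
      linarith
    have f8 : W.re = Y'.im := by
      rw [f1, f6]
      linarith
    have h4 : X.re - X'.im + (Y.re - Y'.im) = (W' - X').im - (W - X).re := by
      simp only [Complex.sub_re, Complex.sub_im]
      rw [f7, f8]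
      ring
    rw [h4] at h2
    have h5 := Complex.abs_re_le_norm (W - X)
    have h6 := Complex.abs_im_le_norm (W' - X')
    have h7 := abs_sub ((W' - X').im) ((W - X).re)
    have h8 : (M + 2) ^ n * ‖w - ⟨x, x⟩‖ ≤ (M + 2) ^ (n + 1) * ‖w - ⟨x, x⟩‖ := by
      refine mul_le_mul_of_nonneg_right ?_ (norm_nonneg _)
      exact pow_le_pow_right₀ (by linarith) (by omega)
    linarith

end Pool.Agent.Lib.MP9fa4ca
end

section
/-!
# CR/FIN : the arithmetic of the rotation number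
-/
set_option autoImplicit false

open Set Topology Filter Complex MeasureTheory

namespace Pool.Agent.Lib.MP9fa4ca

open ROTAux

theorem exp_kappa_le {X D : ℝ} (hX : 0 < X) (hD : 1 ≤ D) :
    Real.exp (-(max (-Real.log X) 0 * D)) ≤ X := by
  rcases le_total 1 X with h | h
  · refine le_trans ?_ h
    rw [Real.exp_le_one_iff]
    have : 0 ≤ max (-Real.log X) 0 * D := mul_nonneg (le_max_right _ _) (by linarith)
    linarith
  · rw [← Real.le_log_iff_exp_le hX]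
    have h1 : -Real.log X ≤ max (-Real.log X) 0 := le_max_left _ _
    have h2 : 0 ≤ max (-Real.log X) 0 := le_max_right _ _
    nlinarith

theorem differentiable_pol {d : ℕ} (c : Fin (d + 1) → ℝ) : Differentiable ℝ (pol c) := by
  unfold pol
  fun_prop

theorem continuous_deriv_pol {d : ℕ} (c : Fin (d + 1) → ℝ) : Continuous (deriv (pol c)) := by
  have h : ContDiff ℝ 1 (pol c) := by
    unfold pol
    fun_prop
  exact h.continuous_deriv le_rfl

/-- The arithmetic condition, for the rotation number of the core. -/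
theorem cremer_core {d : ℕ} (hd : 2 ≤ d) (c : Fin (d + 1) → ℝ) (h : c (Fin.last d) ≠ 0)
    {A : Set ℂ} (hA : IsARD (pol c) A) {e : ↥A ≃ₜ (Circle × ↥(Ioo (0 : ℝ) 1))}
    (C : Core2 (pol c) A e) :
    ∃ K : ℝ, ∀ q : ℕ, 1 ≤ q → ∀ m : ℤ,
      Real.exp (-(K * (d : ℝ) ^ ((q + 1) / 2))) ≤ |q * C.α - m| := by
  have hpd := differentiable_pol c
  have hp := hpd.continuous
  -- the interval
  obtain ⟨a, b, ha, hab, hb⟩ : ∃ a b : ℝ, C.s₀ < a ∧ a < b ∧ b < C.s₁ := by
    obtain ⟨a, h1, h2⟩ := exists_between C.lt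
    obtain ⟨b, h3, h4⟩ := exists_between h2
    exact ⟨a, b, h1, h3, h4⟩
  obtain ⟨ρ, hρ, hρA⟩ : ∃ ρ : ℝ, 0 < ρ ∧ ∀ x ∈ Icc a b,
      Metric.ball ((0 : ℂ) + x * (1 + I)) ρ ⊆ A := by
    have hK : IsCompact ((fun x : ℝ => (0 : ℂ) + x * (1 + I)) '' Icc a b) :=
      isCompact_Icc.image (by fun_prop)
    obtain ⟨ρ, hρ, h1⟩ := hK.exists_thickening_subset_open hA.opn (by
      rintro _ ⟨x, hx, rfl⟩
      exact C.seg x (lt_of_lt_of_le ha hx.1) (lt_of_le_of_lt hx.2 hb))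
    refine ⟨ρ, hρ, fun x hx => ?_⟩
    have h2 : ((0 : ℂ) + x * (1 + I)) ∈ (fun x : ℝ => (0 : ℂ) + x * (1 + I)) '' Icc a b :=
      ⟨x, hx, rfl⟩
    exact (Metric.ball_subset_thickening h2 ρ).trans h1
  -- the Lipschitz constant
  obtain ⟨M, hM0, hM⟩ : ∃ M : ℝ, 0 ≤ M ∧ ∀ z ∈ A, |deriv (pol c) z.re| ≤ M := by
    have h1 : IsCompact (closure A) := hA.bdd.isCompact_closure
    obtain ⟨M, hM⟩ := h1.exists_bound_of_continuousOn (f := fun z : ℂ => deriv (pol c) z.re)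
      (((continuous_deriv_pol c).comp Complex.continuous_re).continuousOn)
    refine ⟨max M 0, le_max_right _ _, fun z hz => (hM z (subset_closure hz)).trans
      (le_max_left _ _)⟩
  set Λ := M + 2 with hΛ
  have hΛ2 : 2 ≤ Λ := by linarith
  have hinv : ∀ z ∈ A, hen (pol c) 1 z ∈ A := fun z hz => (hA.inv z).2 hz
  have hseg : ∀ s : ℝ, C.s₀ < s → s < C.s₁ → (⟨s, s⟩ : ℂ) ∈ A := fun s h1 h2 => by
    rw [← diag_eq]
    exact C.seg s h1 h2
  have hIoo : ∀ x ∈ Icc a b, x ∈ Ioo C.s₀ C.s₁ := fun x hx =>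
    ⟨lt_of_lt_of_le ha hx.1, lt_of_le_of_lt hx.2 hb⟩
  obtain ⟨κ, hκ0, hκ, hκ'⟩ := PLYAux.lower hd c h hab
  -- the area
  have hvA : volume A ≠ ⊤ := hA.bdd.measure_lt_top.ne
  set v := (volume A).toReal with hv
  have hv0 : 0 < v := by
    refine ENNReal.toReal_pos ?_ hvA
    refine (hA.opn.measure_pos volume ?_).ne'
    exact ⟨_, hρA a (left_mem_Icc.2 hab.le) (Metric.mem_ball_self hρ)⟩
  set κ₁ := max (-Real.log ρ) 0 with hκ₁
  set κ₂ := max (-Real.log (1 / (64 * v))) 0 with hκ₂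
  have hκ₁0 : 0 ≤ κ₁ := le_max_right _ _
  have hκ₂0 : 0 ≤ κ₂ := le_max_right _ _
  have hlogΛ : 0 ≤ Real.log (2 * Λ) := Real.log_nonneg (by linarith)
  have hlog2 : 0 ≤ Real.log 2 := Real.log_nonneg (by norm_num)
  refine ⟨Real.log 2 + 2 * (κ₁ + κ + 2 * Real.log (2 * Λ)) + κ₂, fun q hq m => ?_⟩
  set N' := (q + 1) / 2 with hN'
  set D := (d : ℝ) ^ N' with hD
  have hd1 : (1 : ℝ) ≤ d := by exact_mod_cast (by omega : 1 ≤ d)
  have hD1 : 1 ≤ D := one_le_pow₀ hd1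
  by_contra hcon
  rw [not_le] at hcon
  set ε := |q * C.α - m| with hε
  have hε0 : 0 < ε := by
    refine abs_pos.2 fun h0 => ?_
    have h1 := (C.irr.natCast_mul (m := q) (by omega)).ne_int m
    apply h1
    linarith
  set δ := Real.exp (-(κ * D)) with hδ
  have hδ0 : 0 < δ := Real.exp_pos _
  set r := min ρ (δ / (2 * Λ ^ N')) with hr
  have hr0 : 0 < r := lt_min hρ (by positivity)
  have hrδ : 2 * Λ ^ N' * r ≤ δ := by
    have h4 : r ≤ δ / (2 * Λ ^ N') := min_le_right _ _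
    rwa [le_div_iff₀' (by positivity)] at h4
  -- the point
  obtain ⟨x, hx, hlip⟩ : ∃ x ∈ Icc a b, ∀ w ∈ Metric.ball (⟨x, x⟩ : ℂ) r, ∀ s' ∈ Ioo C.s₀ C.s₁,
      (hen (pol c) 1)^[q] w ≠ ⟨s', s'⟩ := by
    have hball' : ∀ x ∈ Icc a b, Metric.ball (⟨x, x⟩ : ℂ) r ⊆ A := fun x hx => by
      rw [← diag_eq]
      exact (Metric.ball_subset_ball (min_le_left _ _)).trans (hρA x hx)
    obtain ⟨n, hn⟩ : ∃ n, N' = n + 1 := ⟨N' - 1, by omega⟩
    rw [hn] at hrδ
    have hDn : D = (d : ℝ) ^ (n + 1) := by rw [hD, hn]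
    rcases Nat.even_or_odd' q with ⟨j, hj | hj⟩
    · obtain ⟨x, hx, hxD⟩ := hκ n
      refine ⟨x, hx, fun w hw s' hs' heq => ?_⟩
      have h1 := (sep hpd hA hM0 hM hseg n (hIoo x hx) hr0 (hball' x hx) hw hs').1 (by
        rw [← heq]
        congr 2
        omega)
      rw [← hDn] at hxD
      linarith
    · obtain ⟨x, hx, hxD⟩ := hκ' n
      refine ⟨x, hx, fun w hw s' hs' heq => ?_⟩
      have h1 := (sep hpd hA hM0 hM hseg n (hIoo x hx) hr0 (hball' x hx) hw hs').2 (by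
        rw [← heq]
        congr 2
        omega)
      rw [← hDn] at hxD
      linarith
  set z : ℂ := 0 + x * (1 + I) with hz
  have hball : Metric.ball z r ⊆ A :=
    (Metric.ball_subset_ball (min_le_left _ _)).trans (hρA x hx)
  have hzx : z = ⟨x, x⟩ := by rw [hz, diag_eq]
  -- the exponents
  obtain ⟨n, k, hnk, hn⟩ : ∃ n k : ℤ, n * C.α + k = ε ∧ (n = q ∨ n = -q) := by
    rcases le_total 0 (q * C.α - m) with h0 | h0
    · exact ⟨q, -m, by rw [hε, abs_of_nonneg h0]; push_cast; ring, Or.inl rfl⟩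
    · exact ⟨-q, m, by rw [hε, abs_of_nonpos h0]; push_cast; ring, Or.inr rfl⟩
  have hiter : ∀ w, (hf (pol c) hp ^ (q : ℤ)) w = (hen (pol c) 1)^[q] w := fun w => by
    rw [zpow_natCast]
    have : ∀ (j : ℕ) (w : ℂ), (hf (pol c) hp ^ j) w = (hen (pol c) 1)^[j] w := by
      intro j
      induction j with
      | zero => intro w; simp
      | succ j ih =>
        intro w
        rw [pow_succ, Homeomorph.mul_apply, ih, Function.iterate_succ_apply]
        rfl
    exact this q w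
  have hdis : ∀ s' : ℝ, C.s₀ < s' → s' < C.s₁ →
      (hf (pol c) hp ^ n) (0 + s' * (1 + I)) ∉ Metric.ball z r := by
    intro s' hs0 hs1 hmem
    rw [diag_eq, hzx] at hmem
    rcases hn with rfl | rfl
    · rw [hiter] at hmem
      have h1 := iterate_refl (pol c) ⟨s', s'⟩ q
      rw [refl_diag] at h1
      refine hlip (refl ((hen (pol c) 1)^[q] ⟨s', s'⟩)) ?_ s' ⟨hs0, hs1⟩ h1
      rw [Metric.mem_ball, dist_eq_norm] at hmem ⊢
      rw [← refl_diag x, refl_isometry]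
      exact hmem
    · refine hlip _ hmem s' ⟨hs0, hs1⟩ ?_
      rw [← hiter, ← Homeomorph.mul_apply, ← zpow_add, add_neg_cancel, zpow_zero,
        Homeomorph.one_apply]
  have hhalf := C.half hp n k (by rw [hnk]; exact hε0) x r (lt_of_lt_of_le ha hx.1)
    (lt_of_le_of_lt hx.2 hb) hr0 hball hdis
  -- the estimates
  have hK : -((Real.log 2 + 2 * (κ₁ + κ + 2 * Real.log (2 * Λ)) + κ₂) * D) =
      -(Real.log 2 * D) + 2 * (-((κ₁ + κ + 2 * Real.log (2 * Λ)) * D)) + -(κ₂ * D) := by ring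
  have hrlow : Real.exp (-((κ₁ + κ + 2 * Real.log (2 * Λ)) * D)) ≤ r := by
    refine le_min ?_ ?_
    · refine le_trans ?_ (exp_kappa_le hρ hD1)
      rw [Real.exp_le_exp, ← hκ₁]
      nlinarith
    · have h1 : 2 * Λ ^ N' ≤ Real.exp (Real.log (2 * Λ) * D) := by
        have h2 : (N' : ℝ) ≤ D := by
          have h3 : N' < 2 ^ N' := Nat.lt_two_pow_self
          have h4 : (2 : ℝ) ^ N' ≤ D := by
            rw [hD]
            gcongr
            exact_mod_cast hd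
          have h5 : (N' : ℝ) ≤ 2 ^ N' := by exact_mod_cast h3.le
          linarith
        have h3 : (2 * Λ) ^ N' ≤ Real.exp (Real.log (2 * Λ) * D) := by
          rw [← Real.rpow_natCast, Real.rpow_def_of_pos (by linarith), Real.exp_le_exp]
          gcongr
        refine le_trans ?_ h3
        rw [mul_pow]
        gcongr
        exact le_self_pow₀ (by norm_num) (by omega)
      have h2 : Real.exp (-((κ₁ + κ + 2 * Real.log (2 * Λ)) * D)) ≤
          δ / Real.exp (Real.log (2 * Λ) * D) := by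
        rw [hδ, ← Real.exp_sub, Real.exp_le_exp]
        nlinarith
      refine h2.trans ?_
      gcongr
  have hεr : ε < r ^ 2 * (1 / (64 * v)) := by
    refine hcon.trans_le ?_
    rw [hK, Real.exp_add, Real.exp_add]
    have h1 : Real.exp (-(Real.log 2 * D)) ≤ 1 := by
      rw [Real.exp_le_one_iff]
      nlinarith
    have h2 : Real.exp (2 * (-((κ₁ + κ + 2 * Real.log (2 * Λ)) * D))) ≤ r ^ 2 := by
      have h3 : Real.exp (2 * (-((κ₁ + κ + 2 * Real.log (2 * Λ)) * D))) =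
          Real.exp (-((κ₁ + κ + 2 * Real.log (2 * Λ)) * D)) ^ 2 := by
        rw [← Real.exp_nat_mul]
        norm_num
      rw [h3]
      gcongr
    have h3 : Real.exp (-(κ₂ * D)) ≤ 1 / (64 * v) := exp_kappa_le (by positivity) hD1
    calc Real.exp (-(Real.log 2 * D)) * Real.exp (2 * (-((κ₁ + κ + 2 * Real.log (2 * Λ)) * D))) *
          Real.exp (-(κ₂ * D)) ≤ 1 * r ^ 2 * (1 / (64 * v)) := by gcongr
      _ = r ^ 2 * (1 / (64 * v)) := by ring
  have hε2 : ε < 1 / 2 := by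
    refine hcon.trans_le ?_
    have h1 : (1 : ℝ) / 2 = Real.exp (-Real.log 2) := by
      rw [Real.exp_neg, Real.exp_log (by norm_num)]
      norm_num
    rw [h1, Real.exp_le_exp]
    nlinarith [mul_nonneg hκ₁0 (by linarith : (0 : ℝ) ≤ D), mul_nonneg hκ0 (by linarith : (0 : ℝ) ≤ D),
      mul_nonneg hlogΛ (by linarith : (0 : ℝ) ≤ D), mul_nonneg hκ₂0 (by linarith : (0 : ℝ) ≤ D)]
  -- the number of disjoint copies
  obtain ⟨N, hN1, hN2⟩ : ∃ N : ℕ, N * ε < 1 ∧ 1 / (2 * ε) ≤ N := by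
    refine ⟨⌈1 / ε⌉₊ - 1, ?_, ?_⟩
    · have h1 : 0 < ⌈1 / ε⌉₊ := Nat.ceil_pos.2 (by positivity)
      have h2 : ((⌈1 / ε⌉₊ - 1 : ℕ) : ℝ) < 1 / ε := by
        rw [← Nat.lt_ceil]
        omega
      rwa [lt_div_iff₀ hε0] at h2
    · have h1 : 0 < ⌈1 / ε⌉₊ := Nat.ceil_pos.2 (by positivity)
      rw [Nat.cast_sub (by omega), Nat.cast_one]
      have h2 := Nat.le_ceil (1 / ε)
      have h3 : 1 / (2 * ε) = 1 / ε - 1 / (2 * ε) := by
        field_simp
        norm_num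
      have h4 : 1 ≤ 1 / (2 * ε) := by
        rw [le_div_iff₀ (by positivity)]
        linarith
      linarith
  have harea := C.area hp n k (by rw [hnk]; exact hε0) N (by rw [hnk]; exact hN1)
  have hfin : (N : ℝ) * ((r / 8) ^ 2 * Real.pi) ≤ v := by
    have h1 : (N : ENNReal) * (ENNReal.ofReal (r / 8) ^ 2 * NNReal.pi) ≤ volume A :=
      (mul_le_mul_right hhalf _).trans harea
    have h2 := (ENNReal.toReal_le_toReal (ne_top_of_le_ne_top hvA h1) hvA).2 h1
    rw [ENNReal.toReal_mul, ENNReal.toReal_mul, ENNReal.toReal_pow, ENNReal.toReal_natCast,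
      ENNReal.toReal_ofReal (by positivity)] at h2
    exact h2
  have h1 : 1 / (2 * ε) * ((r / 8) ^ 2 * Real.pi) ≤ v :=
    (mul_le_mul_of_nonneg_right hN2 (by positivity)).trans hfin
  have h2 : (r / 8) ^ 2 * Real.pi ≤ v * (2 * ε) := by
    rw [div_mul_eq_mul_div, one_mul, div_le_iff₀ (by positivity)] at h1
    exact h1
  have h3 : ε * (64 * v) < r ^ 2 := by
    rw [mul_one_div, lt_div_iff₀ (by positivity)] at hεr
    exact hεr
  nlinarith [Real.pi_gt_three, sq_nonneg r, mul_pos hr0 hr0]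

end Pool.Agent.Lib.MP9fa4ca
end

section
/-!
# CR/Main : the arithmetic of the rotation numbers of annular rotation domains
-/
set_option autoImplicit false

open Set Topology Filter Complex MeasureTheory

namespace Pool.Agent.Lib.MP9fa4ca

theorem cremer {d : ℕ} (hd : 2 ≤ d) (b : ℝ) (hb : b = 1 ∨ b = -1) (c : Fin (d + 1) → ℝ)
    (h : c (Fin.last d) ≠ 0) (A : Set (ℝ × ℝ)) (hA : RotDom b c A) (α : ℝ)
    (hα : RotNum b c A α) :
    ∃ K : ℝ, ∀ q : ℕ, 1 ≤ q → ∀ m : ℤ, Real.exp (-(K * (d : ℝ) ^ ((q + 1) / 2))) ≤ |q * α - m| := by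
  rcases hb with rfl | rfl
  · have h1 := rotDom_one.1 hA
    obtain ⟨e, he⟩ := (rotNum_one.1 hα).hasRot
    have hARD := h1.isARD
    have hp := (differentiable_pol c).continuous
    obtain ⟨C⟩ := exists_core2 (pol c) hp _ hARD.opn hARD.bdd e hARD.inv hARD.per
    obtain ⟨k, hk⟩ := specUni (pol c) hp _ hARD e C.α α C.rot he
    obtain ⟨K, hK⟩ := cremer_core hd c h hARD C
    refine ⟨K, fun q hq m => (hK q hq (m - q * k)).trans (le_of_eq ?_)⟩
    rw [hk]
    push_cast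
    congr 1
    ring
  · exact absurd hA (no_rotDom _ A)

/-- The numbers which are never rotation numbers, by the Cremer type condition. -/
def cremerSet : Set ℝ :=
  ⋂ (d : ℕ) (K : ℕ), {α | ∃ q : ℕ, 1 ≤ q ∧ ∃ m : ℤ,
    |q * α - m| < Real.exp (-(K * (d : ℝ) ^ ((q + 1) / 2)))}

theorem cremerSet_residual : cremerSet ∈ residual ℝ := by
  unfold cremerSet
  rw [countable_iInter_mem]
  intro d
  rw [countable_iInter_mem]
  intro K
  have ho : IsOpen {α : ℝ | ∃ q : ℕ, 1 ≤ q ∧ ∃ m : ℤ,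
      |q * α - m| < Real.exp (-(K * (d : ℝ) ^ ((q + 1) / 2)))} := by
    have h1 : {α : ℝ | ∃ q : ℕ, 1 ≤ q ∧ ∃ m : ℤ,
        |q * α - m| < Real.exp (-(K * (d : ℝ) ^ ((q + 1) / 2)))} = ⋃ (q : ℕ) (_ : 1 ≤ q) (m : ℤ),
          {α : ℝ | |q * α - m| < Real.exp (-(K * (d : ℝ) ^ ((q + 1) / 2)))} := by
      ext α
      simp
    rw [h1]
    exact isOpen_iUnion fun q => isOpen_iUnion fun _ => isOpen_iUnion fun m =>
      isOpen_lt (by fun_prop) continuous_const
  refine residual_of_dense_open ho ?_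
  refine Rat.denseRange_cast.mono ?_
  rintro _ ⟨x, rfl⟩
  refine ⟨x.den, x.den_pos, x.num, ?_⟩
  have h1 : (x.den : ℝ) * (x : ℝ) - x.num = 0 := by
    have h2 : (x.den : ℝ) ≠ 0 := by exact_mod_cast x.den_pos.ne'
    have h3 : (x : ℝ) = x.num / x.den := by exact_mod_cast (Rat.num_div_den x).symm
    rw [h3, mul_div_cancel₀ _ h2, sub_self]
  rw [h1, abs_zero]
  exact Real.exp_pos _

theorem cremer_all :
    (∀ (d : ℕ) (b : ℝ) (c : Fin (d + 1) → ℝ) (A : Set (ℝ × ℝ)) (α : ℝ), 2 ≤ d →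
      (b = 1 ∨ b = -1) → c (Fin.last d) ≠ 0 → RotDom b c A → RotNum b c A α →
        ∃ K : ℝ, ∀ q : ℕ, 1 ≤ q → ∀ m : ℤ, Real.exp (-(K * (d : ℝ) ^ ((q + 1) / 2))) ≤ |q * α - m|) ∧
    ∃ S ∈ residual ℝ, ∀ (d : ℕ) (b : ℝ) (c : Fin (d + 1) → ℝ) (A : Set (ℝ × ℝ)) (α : ℝ), 2 ≤ d →
      (b = 1 ∨ b = -1) → c (Fin.last d) ≠ 0 → RotDom b c A → RotNum b c A α → α ∉ S := by
  refine ⟨fun d b c A α hd hb hc hA hα => cremer hd b hb c hc A hA α hα,
    cremerSet, cremerSet_residual, fun d b c A α hd hb hc hA hα hS => ?_⟩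
  obtain ⟨K, hK⟩ := cremer hd b hb c hc A hA α hα
  obtain ⟨N, hN⟩ := exists_nat_ge K
  obtain ⟨q, hq, m, hm⟩ := mem_iInter.1 (mem_iInter.1 hS d) N
  have h1 := hK q hq m
  have h2 : Real.exp (-(N * (d : ℝ) ^ ((q + 1) / 2))) ≤ Real.exp (-(K * (d : ℝ) ^ ((q + 1) / 2))) := by
    rw [Real.exp_le_exp]
    have h3 : (0 : ℝ) ≤ (d : ℝ) ^ ((q + 1) / 2) := by positivity
    nlinarith
  linarith

end Pool.Agent.Lib.MP9fa4ca
end
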